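import Pool.Agent.W536.LM.Stm

/-! Project LM (owner helper536), part FAC: product formula for the iterated resultants. -/

set_option autoImplicit false

open Polynomial W536.LM

namespace Pool.Agent.W735.LM

theorem map_map_eval {S : Type} [CommRing S] (P : Par S) (r : S) :
    (P.map (C : S →+* S[X])).map (evalRingHom r) = P := by
  cases P
  simp [Par.map]

theorem t_FAC (hN : S_NAT) (hD : S_DEG) : S_FAC := by
  intro n S _ _ P a r1 r2 w w0 h
  have hdeg : (G n (P.map C) X (C w0)).natDegree ≤ 2 ^ (n + 1) := hD n S P w0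
  have ev : ∀ r, (G n (P.map C) X (C w0)).eval r = G n P r w0 := by
    intro r
    have h1 := hN n S[X] S (evalRingHom r) (P.map C) X (C w0)
    rw [map_map_eval, coe_evalRingHom, eval_X, eval_C] at h1
    exact h1
  show resultant (Ep P.L (P.m (4 - n)) (P.m (5 - n)) (P.e (4 - n)) w)
    (G n (P.map C) X (C w0)) 2 (2 ^ (n + 1)) = _
  rw [h, mul_assoc, resultant_C_mul_left]
  have key := resultant_mul_left (X - C r1) (X - C r2) (G n (P.map C) X (C w0)) (2 ^ (n + 1)) hdeg
  rw [natDegree_X_sub_C, natDegree_X_sub_C, resultant_X_sub_C_left _ _ _ hdeg,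
    resultant_X_sub_C_left _ _ _ hdeg, ev, ev] at key
  rw [← key]

end Pool.Agent.W735.LM
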