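import Pool.Agent.W735.LM.Dil

/-!
The bump sets with end points in the orbit of `0`, and the density of this orbit.
-/

set_option autoImplicit false
set_option linter.unusedVariables false
set_option linter.unusedSectionVars false

open scoped Topology MatrixGroups
open Filter OnePoint MeasureTheory Pool.W735.Dx

namespace Pool.W735.LM

noncomputable section

variable {G : Subgroup (ℝ ≃o ℝ)}

lemma mul_app (g h : ℝ ≃o ℝ) (x : ℝ) : (g * h) x = g (h x) := rfl

lemma inv_app (g : ℝ ≃o ℝ) (x : ℝ) : g⁻¹ (g x) = x := g.symm_apply_apply x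

lemma app_inv (g : ℝ ≃o ℝ) (x : ℝ) : g (g⁻¹ x) = x := g.apply_symm_apply x

/-- the conjugate of the second generator. -/
def tc : ℝ ≃o ℝ := ta * tb * ta⁻¹

lemma tc_apply (x : ℝ) : tc x = tbf (x - 1) + 1 := by
  unfold tc
  rw [mul_app, mul_app, ta_inv_apply, ta_apply, tb_apply]

/-- the bump on `(0, 2)`. -/
def tu : ℝ ≃o ℝ := tc⁻¹ * tb

lemma tu_mem (ha : ta ∈ G) (hb : tb ∈ G) : tu ∈ G :=
  G.mul_mem (G.inv_mem (G.mul_mem (G.mul_mem ha hb) (G.inv_mem ha))) hb

lemma tbf_one : tbf 1 = 2 := by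
  rw [tbf_2 (by norm_num) le_rfl]
  norm_num

lemma tu_fix {x : ℝ} (hx : x ∉ Set.Ioo (0 : ℝ) 2) : tu x = x := by
  have h : tb x = tc x := by
    rw [tb_apply, tc_apply]
    rcases le_or_gt x 0 with h0 | h0
    · rw [tbf_0 h0, tbf_0 (by linarith)]
      ring
    · have h2 : 2 ≤ x := by
        by_contra h3
        exact hx ⟨h0, not_le.1 h3⟩
      rw [tbf_3 (by linarith)]
      rcases h2.eq_or_lt with h4 | h4
      · rw [← h4]
        norm_num
        rw [tbf_one]
        norm_num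
      · rw [tbf_3 (by linarith)]
        ring
  unfold tu
  rw [mul_app, h, inv_app]

lemma tbf_lt {y : ℝ} (h0 : 0 < y) (h1 : y < 1) : tbf y < y + 1 := by
  rcases le_or_gt y (1 / 2) with h2 | h2
  · rw [tbf_1 h0 h2, div_lt_iff₀ (by linarith)]
    nlinarith
  · rw [tbf_2 h2 h1.le]
    have h3 : 3 - 1 / y = (3 * y - 1) / y := by
      field_simp
    rw [h3, div_lt_iff₀ h0]
    nlinarith [mul_pos (sub_pos.2 h1) (sub_pos.2 h1)]

lemma lt_tbf {y : ℝ} (h0 : 0 < y) : y < tbf y := by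
  rcases le_or_gt y (1 / 2) with h2 | h2
  · rw [tbf_1 h0 h2, lt_div_iff₀ (by linarith)]
    nlinarith
  · rcases le_or_gt y 1 with h1 | h1
    · have := (tbf_2_bd h2 h1).1
      linarith
    · rw [tbf_3 h1]
      linarith

lemma tu_up {x : ℝ} (hx : x ∈ Set.Ioo (0 : ℝ) 2) : x < tu x := by
  have h : tc x < tb x := by
    rw [tb_apply, tc_apply]
    rcases le_or_gt x 1 with h1 | h1
    · rw [tbf_0 (by linarith)]
      have := lt_tbf hx.1
      linarith
    · rw [tbf_3 h1]
      have := tbf_lt (y := x - 1) (by linarith) (by linarith [hx.2])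
      linarith
  unfold tu
  rw [mul_app]
  have h2 : tc⁻¹ (tc x) < tc⁻¹ (tb x) := (tc⁻¹).strictMono h
  rwa [inv_app] at h2

lemma ta_0 : ta 0 = 1 := by
  rw [ta_apply]
  norm_num

/-! ### the bump sets -/

section bs

variable {Λ : Subgroup (Equiv.Perm (OnePoint ℝ))} (hG : G ≤ PM Λ) (ha : ta ∈ G) (hb : tb ∈ G)

include hG ha hb in
lemma bs_2 {g : ℝ ≃o ℝ} (hg : g ∈ G) :
    BSet (G.subgroupOf (PM Λ)) (Set.Ioo (g 0) (g 2)) := by
  have h1 : g * tu * g⁻¹ ∈ G := G.mul_mem (G.mul_mem hg (tu_mem ha hb)) (G.inv_mem hg)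
  refine BSet.bump ⟨g * tu * g⁻¹, hG h1⟩ (Subgroup.mem_subgroupOf.2 h1) _ _
    (g.strictMono (by norm_num)) ?_ ?_
  · intro x hx
    show g (tu (g⁻¹ x)) = x
    rw [tu_fix, app_inv]
    intro h2
    apply hx
    rw [← app_inv g x]
    exact ⟨g.strictMono h2.1, g.strictMono h2.2⟩
  · intro x hx
    show x < g (tu (g⁻¹ x))
    have h2 : g⁻¹ x ∈ Set.Ioo (0 : ℝ) 2 := by
      rw [← app_inv g x] at hx
      exact ⟨g.lt_iff_lt.1 hx.1, g.lt_iff_lt.1 hx.2⟩
    have h3 := g.strictMono (tu_up h2)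
    rwa [app_inv] at h3

include hG ha hb in
lemma bs_1 {g : ℝ ≃o ℝ} (hg : g ∈ G) :
    BSet (G.subgroupOf (PM Λ)) (Set.Ioo (g 0) (g 1)) := by
  have h1 := bs_2 hG ha hb hg
  have h2 := bs_2 hG ha hb (G.mul_mem hg (G.inv_mem ha))
  have h3 : (g * ta⁻¹) 0 = g (-1) := by
    rw [mul_app, ta_inv_apply]
    norm_num
  have h4 : (g * ta⁻¹) 2 = g 1 := by
    rw [mul_app, ta_inv_apply]
    norm_num
  rw [h3, h4] at h2
  have h5 := BSet.inter _ _ h1 h2
  have h6 : Set.Ioo (g 0) (g 2) ∩ Set.Ioo (g (-1)) (g 1) = Set.Ioo (g 0) (g 1) := by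
    rw [Set.Ioo_inter_Ioo]
    congr 1
    · exact max_eq_left (g.monotone (by norm_num))
    · exact min_eq_right (g.monotone (by norm_num))
  rwa [h6] at h5

lemma BSet.union {H : Subgroup (PM Λ)} {B B' : Set ℝ} (h : BSet H B) (h' : BSet H B') :
    BSet H (B ∪ B') := by
  have h1 := BSet.compl _ (BSet.inter _ _ (BSet.compl _ h) (BSet.compl _ h'))
  rwa [Set.compl_inter, compl_compl, compl_compl] at h1

lemma BSet.singleton {H : Subgroup (PM Λ)} (x : ℝ) : BSet H {x} :=
  BSet.null _ (measurableSet_singleton x) Real.volume_singleton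

include hG ha hb in
lemma bs_m {g : ℝ ≃o ℝ} (hg : g ∈ G) (m : ℕ) :
    BSet (G.subgroupOf (PM Λ)) (Set.Ioo (g 0) (g (m + 1))) := by
  induction m generalizing g with
  | zero =>
    have := bs_1 hG ha hb hg
    simpa using this
  | succ m ih =>
    have h1 := bs_1 hG ha hb hg
    have h2 := ih (G.mul_mem hg ha)
    have h3 : (g * ta) 0 = g 1 := by rw [mul_app, ta_0]
    have h4 : (g * ta) ((m : ℝ) + 1) = g (((m + 1 : ℕ) : ℝ) + 1) := by
      rw [mul_app, ta_apply]
      push_cast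
      rfl
    rw [h3, h4] at h2
    have h5 := BSet.union (BSet.union h1 (BSet.singleton (g 1))) h2
    have h6 : Set.Ioo (g 0) (g 1) ∪ {g 1} ∪ Set.Ioo (g 1) (g (((m + 1 : ℕ) : ℝ) + 1)) =
        Set.Ioo (g 0) (g (((m + 1 : ℕ) : ℝ) + 1)) := by
      have h7 : g 0 < g 1 := g.strictMono (by norm_num)
      have h8 : g 1 < g (((m + 1 : ℕ) : ℝ) + 1) := by
        apply g.strictMono
        push_cast
        have : (0 : ℝ) ≤ m := Nat.cast_nonneg m
        linarith
      ext z
      simp only [Set.mem_union, Set.mem_Ioo, Set.mem_singleton_iff]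
      constructor
      · rintro ((⟨h9, h10⟩ | h9) | ⟨h9, h10⟩)
        · exact ⟨h9, h10.trans h8⟩
        · rw [h9]
          exact ⟨h7, h8⟩
        · exact ⟨h7.trans h9, h10⟩
      · rintro ⟨h9, h10⟩
        rcases lt_trichotomy z (g 1) with h | h | h
        · exact Or.inl (Or.inl ⟨h9, h⟩)
        · exact Or.inl (Or.inr h)
        · exact Or.inr ⟨h, h10⟩
    rwa [h6] at h5

lemma exists_ge (g : ℝ ≃o ℝ) (v : ℝ) : ∃ m : ℕ, v ≤ g (m + 1) := by
  obtain ⟨y, rfl⟩ := g.surjective v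
  obtain ⟨m, hm⟩ := exists_nat_ge y
  exact ⟨m, g.monotone (by linarith)⟩

include hG ha hb in
lemma bs_uv {g g' : ℝ ≃o ℝ} (hg : g ∈ G) (hg' : g' ∈ G) (h : g 0 < g' 0) :
    BSet (G.subgroupOf (PM Λ)) (Set.Ioo (g 0) (g' 0)) := by
  obtain ⟨m, hm⟩ := exists_ge g (g' 0)
  obtain ⟨m', hm'⟩ := exists_ge g' (g (m + 1))
  have h1 := bs_m hG ha hb hg m
  have h2 := bs_m hG ha hb hg' m'
  have h3 := BSet.inter _ _ (BSet.inter _ _ h1 (BSet.compl _ h2))
    (BSet.compl _ (BSet.singleton (g' 0)))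
  have h4 : Set.Ioo (g 0) (g (m + 1)) ∩ (Set.Ioo (g' 0) (g' (m' + 1)))ᶜ ∩ {g' 0}ᶜ =
      Set.Ioo (g 0) (g' 0) := by
    ext z
    simp only [Set.mem_inter_iff, Set.mem_Ioo, Set.mem_compl_iff, Set.mem_singleton_iff]
    constructor
    · rintro ⟨⟨⟨h5, h6⟩, h7⟩, h8⟩
      refine ⟨h5, ?_⟩
      by_contra h9
      push Not at h9
      apply h7
      exact ⟨lt_of_le_of_ne h9 (Ne.symm h8), h6.trans_le hm'⟩
    · rintro ⟨h5, h6⟩
      exact ⟨⟨⟨h5, h6.trans_le hm⟩, fun h7 => absurd h6 (not_lt.2 h7.1.le)⟩, h6.ne⟩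
  rwa [h4] at h3

end bs

/-! ### density of the orbit -/

section dense

variable (ha : ta ∈ G) (hb : tb ∈ G)

include ha in
lemma int_orbit (n : ℤ) : ∃ g ∈ G, g 0 = n := by
  refine ⟨ta ^ n, G.zpow_mem ha n, ?_⟩
  have h : ∀ n : ℕ, (ta ^ n) (0 : ℝ) = n := by
    intro n
    induction n with
    | zero => simp
    | succ n ih =>
      rw [pow_succ', mul_app, ih, ta_apply]
      push_cast
      rfl
  rcases Int.eq_nat_or_neg n with ⟨m, rfl | rfl⟩
  · rw [zpow_natCast, h]
    simp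
  · rw [zpow_neg, zpow_natCast]
    have h2 : ∀ m : ℕ, ∀ x : ℝ, (ta ^ m) x = x + m := by
      intro m
      induction m with
      | zero => intro x; simp
      | succ m ih =>
        intro x
        rw [pow_succ', mul_app, ih, ta_apply]
        push_cast
        ring
    have h1 : (ta ^ m) ((-m : ℝ)) = 0 := by
      rw [h2]
      ring
    have h3 := inv_app (ta ^ m) (-m : ℝ)
    rw [h1] at h3
    rw [h3]
    push_cast
    rfl

lemma len_half {p q : ℝ} (h0 : 0 ≤ p) (hpq : p < q) (h1 : q ≤ 1 / 2) :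
    (q - p) / (1 - (q - p)) ≤ tbf q - tbf p := by
  rw [tbf_1 (by linarith) h1]
  have h2 : tbf p = p / (1 - p) := by
    rcases h0.eq_or_lt with h | h
    · rw [← h, tbf_0 le_rfl]
      simp
    · exact tbf_1 h (by linarith)
  rw [h2, div_sub_div _ _ (by linarith) (by linarith), div_le_div_iff₀ (by linarith)
    (mul_pos (by linarith) (by linarith))]
  have h3 : q * (1 - p) - (1 - q) * p = q - p := by ring
  rw [h3]
  apply mul_le_mul_of_nonneg_left _ (by linarith)
  nlinarith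

lemma len_half' {p q : ℝ} (h0 : 1 / 2 ≤ p) (hpq : p < q) (h1 : q ≤ 1) :
    (q - p) / (1 - (q - p)) ≤ tbf q - tbf p := by
  rw [tbf_2 (by linarith) h1]
  have h2 : tbf p = 3 - 1 / p := by
    rcases h0.eq_or_lt with h | h
    · rw [← h, tbf_1 (by norm_num) le_rfl]
      norm_num
    · exact tbf_2 h (by linarith)
  have hp : 0 < p := by linarith
  have hq : 0 < q := by linarith
  have h3 : 3 - 1 / q - (3 - 1 / p) = (q - p) / (p * q) := by
    field_simp
    ring
  rw [h2, h3, div_le_div_iff₀ (by linarith) (by positivity)]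
  apply mul_le_mul_of_nonneg_left _ (by linarith)
  nlinarith

include ha hb in
lemma dense_aux (n : ℕ) : ∀ p q : ℝ, 1 / ((n : ℝ) + 1) < q - p → ∃ g ∈ G, p < g 0 ∧ g 0 < q := by
  induction n with
  | zero =>
    intro p q h
    norm_num at h
    obtain ⟨g, hg, hg0⟩ := int_orbit ha (⌊p⌋ + 1)
    refine ⟨g, hg, ?_, ?_⟩
    · rw [hg0]
      push_cast
      exact Int.lt_floor_add_one p
    · rw [hg0]
      push_cast
      have := Int.floor_le p
      linarith
  | succ n ih =>
    intro p q h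
    push_cast at h
    have hpos : 0 < 1 / ((n : ℝ) + 1 + 1) := by positivity
    have hpq : p < q := by linarith
    set k := ⌊p⌋ with hk
    obtain ⟨g1, hg1, hg10⟩ := int_orbit ha (k + 1)
    obtain ⟨g0, hg0, hg00⟩ := int_orbit ha k
    by_cases h1 : (k : ℝ) + 1 < q
    · refine ⟨g1, hg1, ?_, ?_⟩
      · rw [hg10]
        push_cast
        exact Int.lt_floor_add_one p
      · rw [hg10]
        push_cast
        exact h1
    push Not at h1
    have h2 : (k : ℝ) ≤ p := Int.floor_le p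
    -- the translation
    obtain ⟨τ, hτ, hτx⟩ : ∃ τ ∈ G, ∀ x, τ x = x - k := by
      refine ⟨ta ^ (-k), G.zpow_mem ha _, ?_⟩
      have h2 : ∀ m : ℕ, ∀ x : ℝ, (ta ^ m) x = x + m := by
        intro m
        induction m with
        | zero => intro x; simp
        | succ m ih =>
          intro x
          rw [pow_succ', mul_app, ih, ta_apply]
          push_cast
          ring
      intro x
      rcases Int.eq_nat_or_neg k with ⟨m, h | h⟩
      · rw [h, zpow_neg, zpow_natCast]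
        have h3 := inv_app (ta ^ m) (x - m)
        rw [h2, sub_add_cancel] at h3
        rw [h3]
        simp
      · rw [h, neg_neg, zpow_natCast, h2]
        push_cast
        ring
    have hp0 : 0 ≤ p - k := by linarith
    have hq1 : q - k ≤ 1 := by linarith
    have htb0 : tb (1 / 2 : ℝ) = 1 := by
      rw [tb_apply, tbf_1 (by norm_num) le_rfl]
      norm_num
    by_cases h3 : p - k < 1 / 2 ∧ 1 / 2 < q - k
    · refine ⟨τ⁻¹ * (tb⁻¹ * ta), G.mul_mem (G.inv_mem hτ) (G.mul_mem (G.inv_mem hb) ha), ?_⟩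
      have h4 : (τ⁻¹ * (tb⁻¹ * ta)) (0 : ℝ) = τ⁻¹ (1 / 2) := by
        have h6 := inv_app tb (1 / 2)
        rw [htb0] at h6
        rw [mul_app, mul_app, ta_0, h6]
      have h5 : τ⁻¹ (1 / 2 : ℝ) = 1 / 2 + k := by
        have h6 := inv_app τ (1 / 2 + k)
        rw [hτx, add_sub_cancel_right] at h6
        exact h6
      rw [h4, h5]
      constructor <;> linarith [h3.1, h3.2]
    · have h4 : (q - p) / (1 - (q - p)) ≤ tbf (q - k) - tbf (p - k) := by
        have h5 : (q - k) - (p - k) = q - p := by ring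
        by_cases h6 : q - k ≤ 1 / 2
        · have := len_half hp0 (by linarith) h6
          rwa [h5] at this
        · have h7 : 1 / 2 ≤ p - k := by
            by_contra h8
            exact h3 ⟨not_le.1 h8, not_le.1 h6⟩
          have := len_half' h7 (by linarith) hq1
          rwa [h5] at this
      have h5 : 1 / ((n : ℝ) + 1) < (q - p) / (1 - (q - p)) := by
        have h8 : q - p ≤ 1 / 2 := by
          by_contra h9
          push Not at h9
          apply h3
          constructor <;> linarith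
        rw [div_lt_div_iff₀ (by positivity) (by linarith)]
        rw [div_lt_iff₀ (by positivity)] at h
        linarith
      obtain ⟨g, hg, hg2, hg3⟩ := ih _ _ (h5.trans_le h4)
      refine ⟨τ⁻¹ * (tb⁻¹ * g), G.mul_mem (G.inv_mem hτ) (G.mul_mem (G.inv_mem hb) hg), ?_, ?_⟩
      · have h6 : (tb * τ) p < g 0 := by
          rw [mul_app, hτx, tb_apply]
          exact hg2
        have h7 := (τ⁻¹ * tb⁻¹).strictMono h6
        have h8 : (τ⁻¹ * tb⁻¹) ((tb * τ) p) = p := by
          rw [mul_app, mul_app, inv_app, inv_app]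
        rw [h8] at h7
        exact h7
      · have h6 : g 0 < (tb * τ) q := by
          rw [mul_app, hτx, tb_apply]
          exact hg3
        have h7 := (τ⁻¹ * tb⁻¹).strictMono h6
        have h8 : (τ⁻¹ * tb⁻¹) ((tb * τ) q) = q := by
          rw [mul_app, mul_app, inv_app, inv_app]
        rw [h8] at h7
        exact h7

include ha hb in
lemma dense_orbit {p q : ℝ} (h : p < q) : ∃ g ∈ G, p < g 0 ∧ g 0 < q := by
  obtain ⟨n, hn⟩ := exists_nat_one_div_lt (sub_pos.2 h)
  exact dense_aux ha hb n p q hn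

end dense

lemma hden_LM {Λ : Subgroup (Equiv.Perm (OnePoint ℝ))} (hG : G ≤ PM Λ) (ha : ta ∈ G)
    (hb : tb ∈ G) (x ε : ℝ) (hε : 0 < ε) : ∃ U : Set ℝ, IsOpen U ∧
      BSet (G.subgroupOf (PM Λ)) U ∧ x ∈ U ∧ U ⊆ Set.Ioo (x - ε) (x + ε) := by
  obtain ⟨g, hg, h1, h2⟩ := dense_orbit ha hb (show x - ε < x by linarith)
  obtain ⟨g', hg', h3, h4⟩ := dense_orbit ha hb (show x < x + ε by linarith)
  exact ⟨Set.Ioo (g 0) (g' 0), isOpen_Ioo, bs_uv hG ha hb hg hg' (h2.trans h3), ⟨h2, h3⟩,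
    Set.Ioo_subset_Ioo h1.le h4.le⟩

end

end Pool.W735.LM
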