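import Pool.Agent.W735.LM.Grp

/-!
The dilation `x ↦ N x` is a germ of the group at every irrational point as soon as it is one on
some interval, up to composition with elements of `PSL₂(ℤ)`.
-/

set_option autoImplicit false
set_option linter.unusedVariables false

open scoped Topology MatrixGroups
open Filter OnePoint Pool.W735.Dx

namespace Pool.W735.LM

noncomputable section

variable {G : Subgroup (ℝ ≃o ℝ)}

lemma zHom_T_pow (n : ℕ) (x : ℝ) :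
    zHom (ModularGroup.T ^ n) (x : OnePoint ℝ) = ((x + n : ℝ) : OnePoint ℝ) := by
  induction n generalizing x with
  | zero => simp
  | succ n ih =>
    rw [pow_succ, map_mul, Equiv.Perm.mul_apply, zHom_T, ih]
    congr 1
    push_cast
    ring

/-- orbits of irrational points under `Γ₀(N)` are dense. -/
lemma dens (N : ℕ) (hN : 2 ≤ N) {u v : ℝ} (huv : u < v) {x : ℝ} (hx : Irrational x) :
    ∃ ε : SL(2, ℤ), (N : ℤ) ∣ ε 1 0 ∧ ∃ y ∈ Set.Ioo u v,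
      zHom ε (x : OnePoint ℝ) = (y : OnePoint ℝ) := by
  have hN0 : (0 : ℝ) < N := by
    have : 0 < N := by omega
    exact_mod_cast this
  have hN1 : (1 : ℝ) < N := by
    have : 1 < N := by omega
    exact_mod_cast this
  obtain ⟨k', hk'⟩ := pow_unbounded_of_one_lt ((N : ℝ) / (v - u)) hN1
  have hvu : 0 < v - u := by linarith
  rw [div_lt_iff₀ hvu] at hk'
  obtain ⟨k, hkk⟩ : ∃ k, k = k' + 1 := ⟨_, rfl⟩
  have hk0 : k ≠ 0 := by omega
  have hk : (N : ℝ) < (N : ℝ) ^ k * (v - u) := by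
    refine hk'.trans_le (mul_le_mul_of_nonneg_right ?_ hvu.le)
    exact pow_le_pow_right₀ hN1.le (by omega)
  set q : ℤ := (N : ℤ) ^ k with hq
  have hq0 : 0 < q := by positivity
  have hqr : (0 : ℝ) < (q : ℝ) := by exact_mod_cast hq0
  have hqN : (q : ℝ) = (N : ℝ) ^ k := by
    rw [hq]
    push_cast
    rfl
  set j : ℤ := ⌊(u * q - 1) / N⌋ + 1 with hj
  set p : ℤ := N * j + 1 with hp
  have hpu : u * q < (p : ℝ) := by
    have h1 := Int.lt_floor_add_one ((u * q - 1) / N)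
    rw [div_lt_iff₀ hN0] at h1
    have h2 : (p : ℝ) = N * ((⌊(u * q - 1) / N⌋ : ℝ) + 1) + 1 := by
      rw [hp, hj]
      push_cast
      ring
    rw [h2]
    linarith
  have hpv : (p : ℝ) < v * q := by
    have h1 := Int.floor_le ((u * q - 1) / N)
    rw [le_div_iff₀ hN0] at h1
    have h2 : (p : ℝ) = N * ((⌊(u * q - 1) / N⌋ : ℝ) + 1) + 1 := by
      rw [hp, hj]
      push_cast
      ring
    rw [h2, hqN]
    rw [hqN] at h1
    nlinarith
  have hcop : IsCoprime p q := by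
    rw [hq]
    apply IsCoprime.pow_right
    exact ⟨1, -j, by rw [hp]; ring⟩
  obtain ⟨δ, hδ0, hδ1⟩ := hcop.exists_SL2_col 0
  have hdet : p * δ 1 1 - δ 0 1 * q = 1 := by
    have := Matrix.SpecialLinearGroup.det_coe δ
    rw [Matrix.det_fin_two, hδ0, hδ1] at this
    exact this
  have hdetR : (p : ℝ) * ((δ 1 1 : ℤ) : ℝ) - ((δ 0 1 : ℤ) : ℝ) * q = 1 := by exact_mod_cast hdet
  have hden : ∀ n : ℕ, (q : ℝ) * (x + n) + ((δ 1 1 : ℤ) : ℝ) ≠ 0 := by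
    intro n h
    apply hx
    refine ⟨-((δ 1 1 : ℤ) : ℚ) / q - n, ?_⟩
    push_cast
    have : x = -((δ 1 1 : ℤ) : ℝ) / q - n := by
      field_simp
      linear_combination h
    exact this.symm
  have hval : ∀ n : ℕ, zHom (δ * ModularGroup.T ^ n) (x : OnePoint ℝ) =
      (((p : ℝ) / q - 1 / (q * (q * (x + n) + ((δ 1 1 : ℤ) : ℝ))) : ℝ) : OnePoint ℝ) := by
    intro n
    rw [map_mul, Equiv.Perm.mul_apply, zHom_T_pow, zHom_coe, hδ0, hδ1, if_neg (hden n),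
      OnePoint.coe_eq_coe]
    have h1 := hden n
    rw [div_sub_div _ _ hqr.ne' (mul_ne_zero hqr.ne' h1), div_eq_div_iff h1
      (mul_ne_zero hqr.ne' (mul_ne_zero hqr.ne' h1))]
    linear_combination (-(q : ℝ) * (q * (x + n) + ((δ 1 1 : ℤ) : ℝ))) * hdetR
  have hlim : Tendsto (fun n : ℕ => (p : ℝ) / q - 1 / (q * (q * (x + n) + ((δ 1 1 : ℤ) : ℝ))))
      atTop (𝓝 ((p : ℝ) / q - 0)) := by
    apply Tendsto.sub tendsto_const_nhds
    simp_rw [one_div]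
    apply Tendsto.inv_tendsto_atTop
    apply Tendsto.const_mul_atTop hqr
    apply tendsto_atTop_add_const_right
    apply Tendsto.const_mul_atTop hqr
    exact tendsto_atTop_add_const_left _ _ tendsto_natCast_atTop_atTop
  rw [sub_zero] at hlim
  have hmem : (p : ℝ) / q ∈ Set.Ioo u v := by
    constructor
    · rwa [lt_div_iff₀ hqr]
    · rwa [div_lt_iff₀ hqr]
  obtain ⟨n, hn⟩ := (hlim.eventually (Ioo_mem_nhds hmem.1 hmem.2)).exists
  refine ⟨δ * ModularGroup.T ^ n, ?_, _, hn, hval n⟩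
  have h1 : (δ * ModularGroup.T ^ n) 1 0 = q := by
    have hT : ((ModularGroup.T ^ n : SL(2, ℤ)) : Matrix (Fin 2) (Fin 2) ℤ) = !![1, (n : ℤ); 0, 1] := by
      have := ModularGroup.coe_T_zpow (n : ℤ)
      rwa [zpow_natCast] at this
    rw [Matrix.SpecialLinearGroup.coe_mul, Matrix.mul_apply, Fin.sum_univ_two, hT, hδ1]
    simp
  rw [h1, hq]
  exact dvd_pow_self _ hk0

lemma SLmul {R : Type*} [CommRing R] (A B : SL(2, R)) (i j : Fin 2) :
    (A * B) i j = A i 0 * B 0 j + A i 1 * B 1 j := by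
  show ((A * B : SL(2, R)) : Matrix (Fin 2) (Fin 2) R) i j = _
  rw [Matrix.SpecialLinearGroup.coe_mul, Matrix.mul_apply, Fin.sum_univ_two]

lemma SLext {R : Type*} [CommRing R] {A B : SL(2, R)} (h0 : A 0 0 = B 0 0) (h1 : A 0 1 = B 0 1)
    (h2 : A 1 0 = B 1 0) (h3 : A 1 1 = B 1 1) : A = B := by
  ext i j
  fin_cases i <;> fin_cases j
  · exact h0
  · exact h1
  · exact h2
  · exact h3

lemma zmap (M : SL(2, ℤ)) (i j : Fin 2) :
    (Matrix.SpecialLinearGroup.map (Int.castRingHom ℝ) M) i j = ((M i j : ℤ) : ℝ) := rfl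

lemma ut_00 (a : ℝ) : (ut a) 0 0 = 1 := rfl
lemma ut_01 (a : ℝ) : (ut a) 0 1 = a := rfl
lemma ut_10 (a : ℝ) : (ut a) 1 0 = 0 := rfl
lemma ut_11 (a : ℝ) : (ut a) 1 1 = 1 := rfl
lemma cm_00 (t r : ℝ) : (cm t r) 0 0 = t + r := rfl
lemma cm_01 (t r : ℝ) : (cm t r) 0 1 = -r * (t + r) - 1 := rfl
lemma cm_10 (t r : ℝ) : (cm t r) 1 0 = 1 := rfl
lemma cm_11 (t r : ℝ) : (cm t r) 1 1 = -r := rfl
lemma T_00 : ModularGroup.T 0 0 = 1 := rfl
lemma T_01 : ModularGroup.T 0 1 = 1 := rfl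
lemma T_10 : ModularGroup.T 1 0 = 0 := rfl
lemma T_11 : ModularGroup.T 1 1 = 1 := rfl
lemma S_00 : ModularGroup.S 0 0 = 0 := rfl
lemma S_01 : ModularGroup.S 0 1 = -1 := rfl
lemma S_10 : ModularGroup.S 1 0 = 1 := rfl
lemma S_11 : ModularGroup.S 1 1 = 0 := rfl

/-- the matrix of the dilation `x ↦ N x`. -/
def dN (N : ℕ) (hN : 0 < N) : SL(2, ℝ) :=
  ⟨!![Real.sqrt N, 0; 0, 1 / Real.sqrt N], by
    rw [Matrix.det_fin_two_of, mul_one_div, zero_mul, sub_zero, div_self]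
    exact Real.sqrt_ne_zero'.2 (by exact_mod_cast hN)⟩

section dil

variable {N : ℕ} (hN : 0 < N)

lemma dN_00 : (dN N hN) 0 0 = Real.sqrt N := rfl
lemma dN_01 : (dN N hN) 0 1 = 0 := rfl
lemma dN_10 : (dN N hN) 1 0 = 0 := rfl
lemma dN_11 : (dN N hN) 1 1 = 1 / Real.sqrt N := rfl

lemma dN_coe (x : ℝ) : mobHom ℝ (dN N hN) (x : OnePoint ℝ) = ((N * x : ℝ) : OnePoint ℝ) := by
  have h1 : (dN N hN) 0 0 = Real.sqrt N := rfl
  have h2 : (dN N hN) 0 1 = 0 := rfl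
  have h3 : (dN N hN) 1 0 = 0 := rfl
  have h4 : (dN N hN) 1 1 = 1 / Real.sqrt N := rfl
  have h0 : 0 < Real.sqrt N := Real.sqrt_pos.2 (by exact_mod_cast hN)
  rw [mobHom_coe, h1, h2, h3, h4, zero_mul, zero_add, add_zero, if_neg (by positivity),
    OnePoint.coe_eq_coe, div_div_eq_mul_div, div_one]
  have h5 : Real.sqrt N * Real.sqrt N = N := Real.mul_self_sqrt (by positivity)
  linear_combination x * h5

lemma irr_dil {x : ℝ} (hx : Irrational x) (hN : 0 < N) : Irrational (N * x) :=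
  hx.natCast_mul hN.ne'

lemma irr_div {x : ℝ} (hx : Irrational x) (hN : 0 < N) : Irrational (x / N) :=
  hx.div_natCast hN.ne'

/-- conjugation of `Γ₀(N)` by the dilation. -/
lemma dN_conj (ε : SL(2, ℤ)) (h : (N : ℤ) ∣ ε 1 0) : ∃ ε' : SL(2, ℤ),
    zHom ε' * mobHom ℝ (dN N hN) = mobHom ℝ (dN N hN) * zHom ε := by
  obtain ⟨c, hc⟩ := h
  have hdet := Matrix.SpecialLinearGroup.det_coe ε
  rw [Matrix.det_fin_two] at hdet
  have hd : Matrix.det !![ε 0 0, N * ε 0 1; c, ε 1 1] = 1 := by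
    rw [Matrix.det_fin_two_of]
    rw [hc] at hdet
    linear_combination hdet
  refine ⟨⟨!![ε 0 0, N * ε 0 1; c, ε 1 1], hd⟩, ?_⟩
  set ε' : SL(2, ℤ) := ⟨!![ε 0 0, N * ε 0 1; c, ε 1 1], hd⟩ with hε'
  have e0 : ε' 0 0 = ε 0 0 := rfl
  have e1 : ε' 0 1 = N * ε 0 1 := rfl
  have e2 : ε' 1 0 = c := rfl
  have e3 : ε' 1 1 = ε 1 1 := rfl
  show mobHom ℝ _ * mobHom ℝ _ = mobHom ℝ _ * mobHom ℝ _
  rw [← map_mul, ← map_mul]
  congr 1
  have h0 : Real.sqrt N ≠ 0 := Real.sqrt_ne_zero'.2 (by exact_mod_cast hN)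
  have h5 : Real.sqrt N * Real.sqrt N = N := Real.mul_self_sqrt (by positivity)
  apply SLext
  · simp only [SLmul, zmap, dN_00, dN_01, dN_10, dN_11, e0, e1, e2, e3]
    ring
  · simp only [SLmul, zmap, dN_00, dN_01, dN_10, dN_11, e0, e1, e2, e3]
    push_cast
    field_simp
    linear_combination (-((ε 0 1 : ℤ) : ℝ)) * h5
  · simp only [SLmul, zmap, dN_00, dN_01, dN_10, dN_11, e0, e1, e2, e3, hc]
    push_cast
    field_simp
    linear_combination (c : ℝ) * h5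
  · simp only [SLmul, zmap, dN_00, dN_01, dN_10, dN_11, e0, e1, e2, e3]
    ring

end dil

section

variable (ha : ta ∈ G) (hb : tb ∈ G)

include ha hb in
/-- the dilation is a germ at the irrational points of some interval. -/
lemma D_local {N : ℕ} (hN : 0 < N) {h : ℝ ≃o ℝ} (hh : h ∈ G) {u v : ℝ} (huv : u < v)
    (A B : SL(2, ℤ)) (hAB : ∀ x ∈ Set.Ioo u v,
      (zHom A * mobHom ℝ (dN N hN) * zHom B) (x : OnePoint ℝ) = ((h x : ℝ) : OnePoint ℝ)) :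
    ∃ u' v' : ℝ, u' < v' ∧ ∀ z ∈ Set.Ioo u' v', Irrational z →
      ∃ k ∈ G, IsGerm (mobHom ℝ (dN N hN)) (k : ℝ ≃o ℝ) z := by
  obtain ⟨x0, hx0, hx1⟩ : ∃ x, Irrational x ∧ x ∈ Set.Ioo u v := by
    obtain ⟨x, h1, h2, h3⟩ := exists_irrational_btwn huv
    exact ⟨x, h1, h2, h3⟩
  obtain ⟨kB, hkB, hB1, hB2⟩ := (Z_mem ha hb B).1 x0 hx0
  set y0 := kB x0 with hy0
  have h1 := hB1.inv
  rw [← hy0] at h1
  have h2 : (kB⁻¹ : ℝ ≃o ℝ) y0 = x0 := kB.symm_apply_apply x0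
  have hc : ContinuousAt (kB⁻¹ : ℝ ≃o ℝ) y0 :=
    (OrderIso.continuous (kB⁻¹ : ℝ ≃o ℝ)).continuousAt
  rw [ContinuousAt, h2] at hc
  have h3 : ∀ᶠ z in 𝓝 y0, IsGerm (zHom B)⁻¹ (kB⁻¹ : ℝ ≃o ℝ) z ∧
      (kB⁻¹ : ℝ ≃o ℝ) z ∈ Set.Ioo u v :=
    h1.eventually.and (hc.eventually (Ioo_mem_nhds hx1.1 hx1.2))
  obtain ⟨u', v', h4, h5⟩ := mem_nhds_iff_exists_Ioo_subset.1 h3
  refine ⟨u', v', h4.1.trans h4.2, fun z hz hzi => ?_⟩
  obtain ⟨h6, h7⟩ := h5 hz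
  set x := (kB⁻¹ : ℝ ≃o ℝ) z with hx
  have h8 : IsGerm (zHom A * mobHom ℝ (dN N hN) * zHom B) h x := by
    filter_upwards [Ioo_mem_nhds h7.1 h7.2] with w hw
    exact hAB w hw
  have h9 : IsGerm (zHom A * mobHom ℝ (dN N hN) * zHom B * (zHom B)⁻¹)
      (fun w => h ((kB⁻¹ : ℝ ≃o ℝ) w)) z :=
    IsGerm.mul (h := h) (h' := (kB⁻¹ : ℝ ≃o ℝ))
      (OrderIso.continuous (kB⁻¹ : ℝ ≃o ℝ)).continuousAt h8 h6
  rw [mul_inv_cancel_right] at h9
  have h10 : zHom A ((N * z : ℝ) : OnePoint ℝ) = ((h x : ℝ) : OnePoint ℝ) := by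
    have := h9.self_of_nhds
    rw [Equiv.Perm.mul_apply, dN_coe] at this
    exact this
  obtain ⟨kA, hkA, hA1, hA2⟩ := (Z_mem ha hb A).1 _ (irr_dil hzi hN)
  have h11 : kA (N * z) = h x := by
    have := hA1.self_of_nhds
    rw [h10, OnePoint.coe_eq_coe] at this
    exact this.symm
  have h12 := hA1.inv
  rw [h11] at h12
  refine ⟨kA⁻¹ * (h * kB⁻¹), G.mul_mem (G.inv_mem hkA) (G.mul_mem hh (G.inv_mem hkB)), ?_⟩
  have h13 := IsGerm.mul (h := (kA⁻¹ : ℝ ≃o ℝ)) (h' := fun w => h ((kB⁻¹ : ℝ ≃o ℝ) w))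
    (x := z) ((OrderIso.continuous (h * kB⁻¹ : ℝ ≃o ℝ)).continuousAt) h12 h9
  rw [← mul_assoc, inv_mul_cancel, one_mul] at h13
  exact h13

include ha hb in
/-- the dilation is a germ at all irrational points. -/
lemma D_mem {N : ℕ} (hN : 2 ≤ N) (hN0 : 0 < N) {h : ℝ ≃o ℝ} (hh : h ∈ G) {u v : ℝ} (huv : u < v)
    (A B : SL(2, ℤ)) (hAB : ∀ x ∈ Set.Ioo u v,
      (zHom A * mobHom ℝ (dN N hN0) * zHom B) (x : OnePoint ℝ) = ((h x : ℝ) : OnePoint ℝ)) :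
    mobHom ℝ (dN N hN0) ∈ QG G := by
  obtain ⟨u', v', huv', hloc⟩ := D_local ha hb hN0 hh huv A B hAB
  refine ⟨fun x hx => ?_, fun y hy => ⟨y / N, irr_div hy hN0, ?_⟩⟩
  · obtain ⟨ε, hε, y, hy, hεy⟩ := dens N hN huv' hx
    obtain ⟨ε', hε'⟩ := dN_conj hN0 ε hε
    obtain ⟨k1, hk1, h1, h2⟩ := (Z_mem ha hb ε).1 x hx
    have h3 : k1 x = y := by
      have := h1.self_of_nhds
      rw [hεy, OnePoint.coe_eq_coe] at this
      exact this.symm
    rw [h3] at h2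
    obtain ⟨k2, hk2, h4⟩ := hloc y hy h2
    have h5 : k2 y = N * y := by
      have := h4.self_of_nhds
      rw [dN_coe, OnePoint.coe_eq_coe] at this
      exact this.symm
    obtain ⟨k3, hk3, h6, h7⟩ := ((QG G).inv_mem (Z_mem ha hb ε')).1 _ (irr_dil h2 hN0)
    refine ⟨k3 * (k2 * k1), G.mul_mem hk3 (G.mul_mem hk2 hk1), ?_, ?_⟩
    · rw [← h3] at h4
      have h8 := IsGerm.mul (h := k2) (h' := k1) (OrderIso.continuous k1).continuousAt h4 h1
      have h9 : IsGerm (zHom ε')⁻¹ (k3 : ℝ ≃o ℝ) (k2 (k1 x)) := by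
        rw [h3, h5]
        exact h6
      have h10 := IsGerm.mul (h := k3) (h' := fun w => k2 (k1 w)) (x := x)
        ((OrderIso.continuous (k2 * k1 : ℝ ≃o ℝ)).continuousAt) h9 h8
      rw [← hε', ← mul_assoc, inv_mul_cancel, one_mul] at h10
      exact h10
    · show Irrational (k3 (k2 (k1 x)))
      rw [h3, h5]
      exact h7
  · rw [dN_coe, OnePoint.coe_eq_coe]
    have : (N : ℝ) ≠ 0 := by
      have : 0 < N := hN0
      positivity
    field_simp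

/-! ### the translations by powers of `1 / N` -/

lemma ut_mul (a b : ℝ) : mobHom ℝ (ut (a + b)) = mobHom ℝ (ut a) * mobHom ℝ (ut b) := by
  rw [← map_mul]
  congr 1
  apply SLext <;> simp only [SLmul, ut_00, ut_01, ut_10, ut_11] <;> ring

lemma ut_dil {N : ℕ} (hN : 0 < N) (a : ℝ) :
    mobHom ℝ (ut (a / N)) = (mobHom ℝ (dN N hN))⁻¹ * mobHom ℝ (ut a) * mobHom ℝ (dN N hN) := by
  rw [mul_assoc, eq_inv_mul_iff_mul_eq, ← map_mul, ← map_mul]
  congr 1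
  have h0 : Real.sqrt N ≠ 0 := Real.sqrt_ne_zero'.2 (by exact_mod_cast hN)
  have h5 : Real.sqrt N * Real.sqrt N = N := Real.mul_self_sqrt (by positivity)
  have h6 : (N : ℝ) ≠ 0 := by positivity
  apply SLext
  · simp only [SLmul, ut_00, ut_01, ut_10, ut_11, dN_00, dN_01, dN_10, dN_11]
    ring
  · simp only [SLmul, ut_00, ut_01, ut_10, ut_11, dN_00, dN_01, dN_10, dN_11]
    field_simp
    linear_combination a * h5
  · simp only [SLmul, ut_00, ut_01, ut_10, ut_11, dN_00, dN_01, dN_10, dN_11]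
    ring
  · simp only [SLmul, ut_00, ut_01, ut_10, ut_11, dN_00, dN_01, dN_10, dN_11]
    ring

lemma zHom_T_eq : zHom ModularGroup.T = mobHom ℝ (ut 1) := by
  show mobHom ℝ _ = mobHom ℝ _
  congr 1
  apply SLext <;> simp only [zmap, ut_00, ut_01, ut_10, ut_11, T_00, T_01, T_10, T_11] <;> simp

include ha in
lemma ut_mem_QG {N : ℕ} (hN : 0 < N) (hD : mobHom ℝ (dN N hN) ∈ QG G) (j : ℕ) :
    mobHom ℝ (ut ((1 / (N : ℝ)) ^ j)) ∈ QG G := by
  induction j with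
  | zero =>
    rw [pow_zero, ← zHom_T_eq]
    exact T_mem ha
  | succ j ih =>
    rw [pow_succ, mul_one_div, ut_dil hN]
    exact (QG G).mul_mem ((QG G).mul_mem ((QG G).inv_mem hD) ih) hD

lemma cm_eq (t r : ℝ) : mobHom ℝ (cm t r) = mobHom ℝ (ut t) * mobHom ℝ (ut r) *
    zHom ModularGroup.S * (mobHom ℝ (ut r))⁻¹ := by
  rw [eq_mul_inv_iff_mul_eq]
  show _ = _ * _ * mobHom ℝ _
  rw [← map_mul, ← map_mul, ← map_mul]
  congr 1
  apply SLext <;> simp only [SLmul, zmap, ut_00, ut_01, ut_10, ut_11, cm_00, cm_01, cm_10, cm_11,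
    S_00, S_01, S_10, S_11] <;> push_cast <;> ring

end

end

end Pool.W735.LM
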