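import Pool.Agent.W735.LM.Smith

/-!
The generators of the Lodha–Moore group.
-/

set_option autoImplicit false
set_option linter.unusedVariables false
set_option linter.unusedSectionVars false
set_option linter.unusedSimpArgs false

open scoped Topology MatrixGroups
open Filter OnePoint MeasureTheory Pool.W735.Dx

namespace Pool.W735.LM

noncomputable section

/-- `h` is piecewise projective, in coordinates. -/
def PP (h : ℝ ≃o ℝ) : Prop :=
  ∃ S : Set ℝ, S.Finite ∧ ∀ x ∉ S, ∃ M : SL(2, ℝ), ∀ᶠ z in 𝓝 x,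
    M 1 0 * z + M 1 1 ≠ 0 ∧ h z = (M 0 0 * z + M 0 1) / (M 1 0 * z + M 1 1)

lemma PP_mem {h : ℝ ≃o ℝ} (hh : PP h) : h ∈ PM (mobHom ℝ).range := by
  obtain ⟨S, hS, h1⟩ := hh
  refine ⟨S, hS, fun x hx => ?_⟩
  obtain ⟨M, hM⟩ := h1 x hx
  refine ⟨mobHom ℝ M, ⟨M, rfl⟩, ?_⟩
  filter_upwards [hM] with z hz
  rw [mobHom_coe, if_neg hz.1, hz.2]

lemma PP_a : PP ta := by
  refine ⟨∅, Set.finite_empty, fun x _ => ⟨ut 1, Eventually.of_forall fun z => ?_⟩⟩
  rw [ut_00, ut_01, ut_10, ut_11, ta_apply]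
  constructor
  · norm_num
  · ring

/-- the matrix of `x / (1 - x)`. -/
def mU : SL(2, ℝ) := ⟨!![1, 0; -1, 1], by rw [Matrix.det_fin_two_of]; ring⟩

/-- the matrix of `3 - 1 / x`. -/
def mV : SL(2, ℝ) := ⟨!![3, -1; 1, 0], by rw [Matrix.det_fin_two_of]; ring⟩

/-- the matrix of `2 x / (1 + x)`. -/
def mW : SL(2, ℝ) := ⟨!![√2, 0; 1 / √2, 1 / √2], by
  rw [Matrix.det_fin_two_of, zero_mul, sub_zero, mul_one_div, div_self]
  positivity⟩

lemma PP_b : PP tb := by
  refine ⟨{0, 1 / 2, 1}, by simp, fun x hx => ?_⟩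
  simp only [Set.mem_insert_iff, Set.mem_singleton_iff, not_or] at hx
  obtain ⟨h0, h1, h2⟩ := hx
  rcases lt_or_gt_of_ne h0 with h | h
  · refine ⟨1, ?_⟩
    filter_upwards [Iio_mem_nhds h] with z hz
    rw [tb_apply, tbf_0 (le_of_lt hz)]
    simp
  · rcases lt_or_gt_of_ne h1 with h' | h'
    · refine ⟨mU, ?_⟩
      filter_upwards [Ioo_mem_nhds h h'] with z hz
      have e1 : mU 0 0 = 1 := rfl
      have e2 : mU 0 1 = 0 := rfl
      have e3 : mU 1 0 = -1 := rfl
      have e4 : mU 1 1 = 1 := rfl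
      rw [tb_apply, tbf_1 hz.1 hz.2.le, e1, e2, e3, e4]
      constructor
      · intro h3
        have := hz.2
        linarith
      · congr 1
        · ring
        · ring
    · rcases lt_or_gt_of_ne h2 with h'' | h''
      · refine ⟨mV, ?_⟩
        filter_upwards [Ioo_mem_nhds h' h''] with z hz
        have e1 : mV 0 0 = 3 := rfl
        have e2 : mV 0 1 = -1 := rfl
        have e3 : mV 1 0 = 1 := rfl
        have e4 : mV 1 1 = 0 := rfl
        have hz0 : z ≠ 0 := by
          have := hz.1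
          intro h3
          rw [h3] at this
          norm_num at this
        rw [tb_apply, tbf_2 hz.1 hz.2.le, e1, e2, e3, e4]
        constructor
        · rw [one_mul, add_zero]
          exact hz0
        · rw [one_mul, add_zero, eq_div_iff hz0]
          field_simp
          ring
      · refine ⟨ut 1, ?_⟩
        filter_upwards [Ioi_mem_nhds h''] with z hz
        rw [tb_apply, tbf_3 hz, ut_00, ut_01, ut_10, ut_11]
        constructor
        · norm_num
        · ring

/-- the underlying function of the third generator. -/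
def tgf (x : ℝ) : ℝ := if 0 ≤ x ∧ x ≤ 1 then 2 * x / (1 + x) else x

lemma tgf_in {x : ℝ} (h0 : 0 ≤ x) (h1 : x ≤ 1) : tgf x = 2 * x / (1 + x) := if_pos ⟨h0, h1⟩

lemma tgf_lt {x : ℝ} (h0 : x < 0) : tgf x = x := if_neg fun h => absurd h.1 (not_le.2 h0)

lemma tgf_gt {x : ℝ} (h0 : 1 < x) : tgf x = x := if_neg fun h => absurd h.2 (not_le.2 h0)

lemma tgf_bd {x : ℝ} (h0 : 0 ≤ x) (h1 : x ≤ 1) : 0 ≤ tgf x ∧ tgf x ≤ 1 := by
  rw [tgf_in h0 h1]
  refine ⟨by positivity, ?_⟩
  rw [div_le_one (by linarith)]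
  linarith

lemma tgf_mono : StrictMono tgf := by
  intro x y hxy
  rcases lt_or_ge x 0 with h0 | h0
  · rw [tgf_lt h0]
    rcases lt_or_ge y 0 with g0 | g0
    · rwa [tgf_lt g0]
    · rcases le_or_gt y 1 with g1 | g1
      · have := (tgf_bd g0 g1).1
        linarith
      · rw [tgf_gt g1]
        linarith
  · rcases le_or_gt x 1 with h1 | h1
    · rcases le_or_gt y 1 with g1 | g1
      · rw [tgf_in h0 h1, tgf_in (h0.trans hxy.le) g1,
          div_lt_div_iff₀ (by linarith) (by linarith)]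
        nlinarith
      · have := (tgf_bd h0 h1).2
        rw [tgf_gt g1]
        linarith
    · rw [tgf_gt h1, tgf_gt (h1.trans hxy)]
      exact hxy

lemma tgf_surj : Function.Surjective tgf := by
  intro y
  rcases lt_or_ge y 0 with h0 | h0
  · exact ⟨y, tgf_lt h0⟩
  · rcases le_or_gt y 1 with h1 | h1
    · refine ⟨y / (2 - y), ?_⟩
      have h2 : 0 < 2 - y := by linarith
      have h3 : 0 ≤ y / (2 - y) := by positivity
      have h4 : y / (2 - y) ≤ 1 := by
        rw [div_le_one h2]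
        linarith
      have h5 : 1 + y / (2 - y) = 2 / (2 - y) := by
        field_simp
        ring
      rw [tgf_in h3 h4, h5]
      field_simp
    · exact ⟨y, tgf_gt h1⟩

/-- the third generator: `2 x / (1 + x)` on `[0, 1]`, the identity elsewhere. -/
def tg : ℝ ≃o ℝ := StrictMono.orderIsoOfSurjective tgf tgf_mono tgf_surj

lemma tg_apply (x : ℝ) : tg x = tgf x := rfl

lemma PP_c : PP tg := by
  refine ⟨{0, 1}, by simp, fun x hx => ?_⟩
  simp only [Set.mem_insert_iff, Set.mem_singleton_iff, not_or] at hx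
  obtain ⟨h0, h1⟩ := hx
  rcases lt_or_gt_of_ne h0 with h | h
  · refine ⟨1, ?_⟩
    filter_upwards [Iio_mem_nhds h] with z hz
    rw [tg_apply, tgf_lt hz]
    simp
  · rcases lt_or_gt_of_ne h1 with h' | h'
    · refine ⟨mW, ?_⟩
      filter_upwards [Ioo_mem_nhds h h'] with z hz
      have e1 : mW 0 0 = √2 := rfl
      have e2 : mW 0 1 = 0 := rfl
      have e3 : mW 1 0 = 1 / √2 := rfl
      have e4 : mW 1 1 = 1 / √2 := rfl
      have hs : 0 < √2 := by positivity
      have hss : √2 * √2 = 2 := Real.mul_self_sqrt (by norm_num)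
      have h5 : 0 < 1 + z := by linarith [hz.1]
      have h6 : 1 / √2 * z + 1 / √2 = (1 + z) / √2 := by ring
      rw [tg_apply, tgf_in hz.1.le hz.2.le, e1, e2, e3, e4, h6]
      constructor
      · positivity
      · rw [add_zero, div_div_eq_mul_div]
        congr 1
        linear_combination (-z) * hss
    · refine ⟨1, ?_⟩
      filter_upwards [Ioi_mem_nhds h'] with z hz
      rw [tg_apply, tgf_gt hz]
      simp

/-- the germ of the third generator is not integral. -/
lemma tg_not_int : ¬ ∃ M : SL(2, ℤ), ∀ x ∈ Set.Ioo (0 : ℝ) 1,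
      tg x = (((M 0 0 : ℤ) : ℝ) * x + ((M 0 1 : ℤ) : ℝ)) /
        (((M 1 0 : ℤ) : ℝ) * x + ((M 1 1 : ℤ) : ℝ)) := by
  rintro ⟨M, hM⟩
  have hdet : M 0 0 * M 1 1 - M 0 1 * M 1 0 = 1 := by
    have := Matrix.SpecialLinearGroup.det_coe M
    rwa [Matrix.det_fin_two] at this
  generalize M 0 0 = p at *
  generalize M 0 1 = q at *
  generalize M 1 0 = r at *
  generalize M 1 1 = s at *
  have key : ∀ x ∈ Set.Ioo (0 : ℝ) 1,
      2 * x * ((r : ℝ) * x + s) = (p * x + q) * (1 + x) := by
    intro x hx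
    have h1 := hM x hx
    rw [tg_apply, tgf_in hx.1.le hx.2.le] at h1
    have h2 : (0 : ℝ) < 1 + x := by linarith [hx.1]
    have h3 : 0 < 2 * x / (1 + x) := by
      have := hx.1
      positivity
    have h4 : (r : ℝ) * x + s ≠ 0 := by
      intro h5
      rw [h5, div_zero] at h1
      rw [h1] at h3
      exact lt_irrefl _ h3
    rw [div_eq_div_iff h2.ne' h4] at h1
    exact h1
  have k1 := key (1 / 2) (by norm_num)
  have k2 := key (1 / 3) (by norm_num)
  have k3 := key (1 / 4) (by norm_num)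
  have hq : (q : ℝ) = 0 := by linarith
  have hp : (p : ℝ) = 2 * s := by linarith
  have hr : (r : ℝ) = s := by linarith
  have hq' : q = 0 := by exact_mod_cast hq
  have hp' : p = 2 * s := by exact_mod_cast hp
  rw [hq', hp'] at hdet
  have h5 : (2 : ℤ) ∣ 1 := ⟨s * s, by linarith⟩
  norm_num at h5

/-- the Lodha–Moore group. -/
theorem LM_gens {G : Subgroup (ℝ ≃o ℝ)} (hG : G = Subgroup.closure {ta, tb, tg}) : ¬ UG G := by
  have hle : G ≤ PM (mobHom ℝ).range := by
    rw [hG, Subgroup.closure_le]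
    rintro x (rfl | rfl | rfl)
    · exact PP_mem PP_a
    · exact PP_mem PP_b
    · exact PP_mem PP_c
  have ha : ta ∈ G := by
    rw [hG]
    exact Subgroup.subset_closure (by simp)
  have hb : tb ∈ G := by
    rw [hG]
    exact Subgroup.subset_closure (by simp)
  have hc : tg ∈ G := by
    rw [hG]
    exact Subgroup.subset_closure (by simp)
  obtain ⟨N, hN, hN0, A, B, hAB⟩ := germ_rat (h := tg) (u := 0) (v := 1) 2 0 1 1 (by norm_num) (by
    intro x hx
    rw [tg_apply, tgf_in hx.1.le hx.2.le]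
    push_cast
    refine ⟨?_, ?_⟩
    · have := hx.1
      intro h
      linarith
    · congr 1
      · ring
      · ring) tg_not_int
  exact LM_not_UG hle ha hb hN hN0 hc zero_lt_one A B hAB

end

end Pool.W735.LM
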