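import Pool.Agent.W735.DxGen2

/-!
Germs of the maps `-1/x` and `N x` in groups containing Thompson's group of piecewise `PSL₂(ℤ)`
homeomorphisms of the line.
-/

set_option autoImplicit false
set_option linter.unusedVariables false

open scoped Topology
open Filter

namespace Pool.W735.LM

noncomputable section

/-- the function `f` agrees near `x` with an element of `G`. -/
def RF (G : Subgroup (ℝ ≃o ℝ)) (f : ℝ → ℝ) (x : ℝ) : Prop :=
  ∃ k ∈ G, ∀ᶠ z in 𝓝 x, (k : ℝ ≃o ℝ) z = f z

variable {G : Subgroup (ℝ ≃o ℝ)}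

lemma RF.of_mem {k : ℝ ≃o ℝ} (hk : k ∈ G) (x : ℝ) : RF G k x :=
  ⟨k, hk, Eventually.of_forall fun _ => rfl⟩

lemma RF.congr {f f' : ℝ → ℝ} {x : ℝ} (h : RF G f x) (he : ∀ᶠ z in 𝓝 x, f z = f' z) :
    RF G f' x := by
  obtain ⟨k, hk, h1⟩ := h
  refine ⟨k, hk, ?_⟩
  filter_upwards [h1, he] with z h2 h3
  rw [h2, h3]

lemma RF.comp {f f' : ℝ → ℝ} {x : ℝ} (h' : RF G f' x) (h : RF G f (f' x)) :
    RF G (fun z => f (f' z)) x := by
  obtain ⟨k', hk', h1⟩ := h'
  obtain ⟨k, hk, h2⟩ := h
  refine ⟨k * k', G.mul_mem hk hk', ?_⟩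
  have h3 : k' x = f' x := h1.self_of_nhds
  rw [← h3] at h2
  have hc : ContinuousAt k' x := (OrderIso.continuous k').continuousAt
  filter_upwards [h1, hc.eventually h2] with z h4 h5
  show k (k' z) = f (f' z)
  rw [h5, h4]

lemma RF.inv {f g : ℝ → ℝ} {x : ℝ} (h : RF G f x) (he : ∀ᶠ z in 𝓝 x, g (f z) = z) :
    RF G g (f x) := by
  obtain ⟨k, hk, h1⟩ := h
  refine ⟨k⁻¹, G.inv_mem hk, ?_⟩
  have h3 : k x = f x := h1.self_of_nhds
  rw [← h3]
  have hc : ContinuousAt (k⁻¹ : ℝ ≃o ℝ) (k x) :=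
    (OrderIso.continuous (k⁻¹ : ℝ ≃o ℝ)).continuousAt
  have h4 : (k⁻¹ : ℝ ≃o ℝ) (k x) = x := k.symm_apply_apply x
  rw [ContinuousAt, h4] at hc
  filter_upwards [hc.eventually h1, hc.eventually he] with w h5 h6
  have h7 : k ((k⁻¹ : ℝ ≃o ℝ) w) = w := k.apply_symm_apply w
  rw [h7] at h5
  rw [← h5] at h6
  exact h6.symm

/-! ### the generators of Thompson's group -/

/-- the translation `x ↦ x + 1`. -/
def ta : ℝ ≃o ℝ := OrderIso.addRight 1

lemma ta_apply (x : ℝ) : ta x = x + 1 := rfl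

lemma ta_inv_apply (x : ℝ) : (ta⁻¹ : ℝ ≃o ℝ) x = x - 1 := by
  have h : (ta⁻¹ : ℝ ≃o ℝ) (ta (x - 1)) = x - 1 := ta.symm_apply_apply _
  rw [ta_apply, sub_add_cancel] at h
  exact h

/-- the underlying function of the second generator. -/
def tbf (x : ℝ) : ℝ :=
  if x ≤ 0 then x else if x ≤ 1 / 2 then x / (1 - x) else if x ≤ 1 then 3 - 1 / x else x + 1

lemma tbf_0 {x : ℝ} (h : x ≤ 0) : tbf x = x := if_pos h

lemma tbf_1 {x : ℝ} (h0 : 0 < x) (h1 : x ≤ 1 / 2) : tbf x = x / (1 - x) := by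
  unfold tbf
  rw [if_neg (not_le.2 h0), if_pos h1]

lemma tbf_2 {x : ℝ} (h0 : 1 / 2 < x) (h1 : x ≤ 1) : tbf x = 3 - 1 / x := by
  unfold tbf
  rw [if_neg (by linarith), if_neg (by linarith), if_pos h1]

lemma tbf_3 {x : ℝ} (h0 : 1 < x) : tbf x = x + 1 := by
  unfold tbf
  rw [if_neg (by linarith), if_neg (by linarith), if_neg (by linarith)]

lemma tbf_1_bd {x : ℝ} (h0 : 0 < x) (h1 : x ≤ 1 / 2) : 0 < tbf x ∧ tbf x ≤ 1 := by
  rw [tbf_1 h0 h1]
  have h2 : 0 < 1 - x := by linarith
  refine ⟨by positivity, ?_⟩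
  rw [div_le_one h2]
  linarith

lemma tbf_2_bd {x : ℝ} (h0 : 1 / 2 < x) (h1 : x ≤ 1) : 1 < tbf x ∧ tbf x ≤ 2 := by
  rw [tbf_2 h0 h1]
  have h2 : 0 < x := by linarith
  have h3 : 1 / x < 2 := by
    rw [div_lt_iff₀ h2]
    linarith
  have h4 : 1 ≤ 1 / x := by
    rw [le_div_iff₀ h2]
    linarith
  constructor <;> linarith

lemma tbf_mono : StrictMono tbf := by
  intro x y hxy
  rcases le_or_gt x 0 with h0 | h0
  · rw [tbf_0 h0]
    rcases le_or_gt y 0 with g0 | g0
    · rw [tbf_0 g0]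
      exact hxy
    · rcases le_or_gt y (1 / 2) with g1 | g1
      · have := (tbf_1_bd g0 g1).1
        linarith
      · rcases le_or_gt y 1 with g2 | g2
        · have := (tbf_2_bd g1 g2).1
          linarith
        · rw [tbf_3 g2]
          linarith
  · rcases le_or_gt x (1 / 2) with h1 | h1
    · rcases le_or_gt y (1 / 2) with g1 | g1
      · rw [tbf_1 h0 h1, tbf_1 (h0.trans hxy) g1]
        rw [div_lt_div_iff₀ (by linarith) (by linarith)]
        nlinarith
      · have := (tbf_1_bd h0 h1).2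
        rcases le_or_gt y 1 with g2 | g2
        · have := (tbf_2_bd g1 g2).1
          linarith
        · rw [tbf_3 g2]
          linarith
    · rcases le_or_gt x 1 with h2 | h2
      · rcases le_or_gt y 1 with g2 | g2
        · rw [tbf_2 h1 h2, tbf_2 (h1.trans hxy) g2]
          have := one_div_lt_one_div_of_lt h0 hxy
          linarith
        · have := (tbf_2_bd h1 h2).2
          rw [tbf_3 g2]
          linarith
      · rw [tbf_3 h2, tbf_3 (h2.trans hxy)]
        linarith

lemma tbf_surj : Function.Surjective tbf := by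
  intro y
  rcases le_or_gt y 0 with h0 | h0
  · exact ⟨y, tbf_0 h0⟩
  · rcases le_or_gt y 1 with h1 | h1
    · refine ⟨y / (1 + y), ?_⟩
      have h2 : 0 < y / (1 + y) := by positivity
      have h3 : y / (1 + y) ≤ 1 / 2 := by
        rw [div_le_div_iff₀ (by positivity) (by norm_num)]
        linarith
      rw [tbf_1 h2 h3]
      field_simp
      ring
    · rcases le_or_gt y 2 with h2 | h2
      · refine ⟨1 / (3 - y), ?_⟩
        have h3 : 0 < 3 - y := by linarith
        have h4 : 1 / 2 < 1 / (3 - y) := one_div_lt_one_div_of_lt h3 (by linarith)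
        have h5 : 1 / (3 - y) ≤ 1 := by
          rw [div_le_one h3]
          linarith
        rw [tbf_2 h4 h5, one_div_one_div]
        ring
      · exact ⟨y - 1, by rw [tbf_3 (by linarith)]; ring⟩

/-- the second generator of Thompson's group: `x` for `x ≤ 0`, `x / (1 - x)` for `0 ≤ x ≤ 1/2`,
`3 - 1 / x` for `1/2 ≤ x ≤ 1`, `x + 1` for `x ≥ 1`. -/
def tb : ℝ ≃o ℝ := StrictMono.orderIsoOfSurjective tbf tbf_mono tbf_surj

lemma tb_apply (x : ℝ) : tb x = tbf x := rfl

/-! ### germs of Möbius maps over `ℤ` at irrational points -/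

section germs

variable (ha : ta ∈ G) (hb : tb ∈ G)

/-- the inversion. -/
def iS (x : ℝ) : ℝ := -1 / x

/-- the lower triangular map `x / (1 + x)`. -/
def iL (x : ℝ) : ℝ := x / (1 + x)

/-- its inverse `x / (1 - x)`. -/
def iU (x : ℝ) : ℝ := x / (1 - x)

lemma iS_iS (x : ℝ) : iS (iS x) = x := by
  unfold iS
  rw [neg_div, neg_div, div_neg, neg_neg, one_div_one_div]

include ha in
lemma RF_add (c : ℤ) (x : ℝ) : RF G (fun z => z + c) x := by
  have h : ∀ n : ℕ, RF G (fun z => z + (n : ℝ)) x ∧ RF G (fun z => z - (n : ℝ)) x := by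
    intro n
    induction n with
    | zero =>
      refine ⟨⟨1, G.one_mem, Eventually.of_forall fun z => ?_⟩,
        ⟨1, G.one_mem, Eventually.of_forall fun z => ?_⟩⟩
      · show z = z + ((0 : ℕ) : ℝ)
        simp
      · show z = z - ((0 : ℕ) : ℝ)
        simp
    | succ n ih =>
      constructor
      · refine (RF.comp ih.1 (RF.of_mem ha _)).congr (Eventually.of_forall fun z => ?_)
        rw [ta_apply]
        push_cast
        ring
      · refine (RF.comp ih.2 (RF.of_mem (G.inv_mem ha) _)).congr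
          (Eventually.of_forall fun z => ?_)
        rw [ta_inv_apply]
        push_cast
        ring
  rcases Int.eq_nat_or_neg c with ⟨n, rfl | rfl⟩
  · simpa using (h n).1
  · refine (h n).2.congr (Eventually.of_forall fun z => ?_)
    push_cast
    ring

include hb in
lemma RF_U0 {x : ℝ} (h0 : 0 < x) (h1 : x < 1 / 2) : RF G iU x := by
  refine (RF.of_mem hb x).congr ?_
  filter_upwards [Ioo_mem_nhds h0 h1] with z hz
  rw [tb_apply, tbf_1 hz.1 hz.2.le]
  rfl

include hb in
lemma RF_L0 {x : ℝ} (h0 : 0 < x) (h1 : x < 1) : RF G iL x := by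
  have h2 : 0 < x / (1 + x) := by positivity
  have h3 : x / (1 + x) < 1 / 2 := by
    rw [div_lt_div_iff₀ (by positivity) (by norm_num)]
    linarith
  have h4 := (RF_U0 hb h2 h3).inv (g := iL) (by
    filter_upwards [Ioo_mem_nhds h2 h3] with z hz
    unfold iL iU
    have h5 : 1 - z ≠ 0 := by
      have := hz.2
      intro h
      linarith
    have h6 : 1 + z / (1 - z) ≠ 0 := by
      have h7 : 1 + z / (1 - z) = 1 / (1 - z) := by
        field_simp
        ring
      rw [h7]
      positivity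
    field_simp
    ring)
  have h5 : iU (x / (1 + x)) = x := by
    unfold iU
    have h6 : 1 - x / (1 + x) = 1 / (1 + x) := by
      field_simp
      ring
    rw [h6]
    field_simp
  rw [h5] at h4
  exact h4

include ha hb in
lemma RF_S0 {x : ℝ} (h0 : 1 / 2 < x) (h1 : x < 1) : RF G iS x := by
  refine (RF.comp (RF.of_mem hb x) (RF_add ha (-3) _)).congr ?_
  filter_upwards [Ioo_mem_nhds h0 h1] with z hz
  rw [tb_apply, tbf_2 hz.1 hz.2.le]
  unfold iS
  push_cast
  ring

include ha hb in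
lemma RF_S1 (n : ℕ) : ∀ x : ℝ, 1 / ((n : ℝ) + 2) < x → x < 1 / ((n : ℝ) + 1) → RF G iS x := by
  induction n with
  | zero =>
    intro x h0 h1
    norm_num at h0 h1
    exact RF_S0 ha hb (by linarith) h1
  | succ n ih =>
    intro x h0 h1
    push_cast at h0 h1
    have hx0 : 0 < x := lt_trans (by positivity) h0
    have h2 : x < 1 / 2 := by
      refine h1.trans_le ?_
      apply one_div_le_one_div_of_le (by norm_num)
      have : (0 : ℝ) ≤ n := Nat.cast_nonneg n
      linarith
    have h3 : iU x = x / (1 - x) := rfl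
    have h4 : RF G iS (iU x) := by
      apply ih
      · rw [h3, div_lt_div_iff₀ (by positivity) (by linarith)]
        rw [div_lt_iff₀ (by positivity)] at h0
        nlinarith
      · rw [h3, div_lt_div_iff₀ (by linarith) (by positivity)]
        rw [lt_div_iff₀ (by positivity)] at h1
        nlinarith
    refine (RF.comp (RF.comp (RF_U0 hb hx0 h2) h4) (RF_add ha (-1) _)).congr ?_
    filter_upwards [Ioo_mem_nhds hx0 h2] with z hz
    unfold iS iU
    have h5 : z ≠ 0 := hz.1.ne'
    have h6 : 1 - z ≠ 0 := by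
      have := hz.2
      intro h
      linarith
    field_simp
    push_cast
    ring

lemma iS_pos {x : ℝ} (h : x < 0) : 0 < iS x := by
  unfold iS
  exact div_pos_of_neg_of_neg (by norm_num) h

include ha hb in
lemma RF_S2 {x : ℝ} (hx : Irrational x) (h0 : 0 < x) (h1 : x < 1) : RF G iS x := by
  have h2 : 1 < 1 / x := by
    rw [lt_div_iff₀ h0]
    linarith
  have h3 : 1 ≤ ⌊1 / x⌋₊ := by
    rw [Nat.one_le_floor_iff]
    exact h2.le
  obtain ⟨n, hn⟩ : ∃ n : ℕ, ⌊1 / x⌋₊ = n + 1 := ⟨⌊1 / x⌋₊ - 1, by omega⟩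
  have h4 : ((n : ℝ) + 1) ≤ 1 / x := by
    have := Nat.floor_le (show 0 ≤ 1 / x by positivity)
    rw [hn] at this
    push_cast at this
    exact this
  have h5 : 1 / x < (n : ℝ) + 2 := by
    have := Nat.lt_floor_add_one (1 / x)
    rw [hn] at this
    push_cast at this
    linarith
  have h6 : (n : ℝ) + 1 ≠ 1 / x := by
    intro h
    apply hx
    refine ⟨1 / ((n : ℚ) + 1), ?_⟩
    push_cast
    rw [h, one_div_one_div]
  have h7 : (n : ℝ) + 1 < 1 / x := lt_of_le_of_ne h4 h6
  apply RF_S1 ha hb n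
  · rw [div_lt_iff₀ (by positivity)]
    rw [div_lt_iff₀ h0] at h5
    linarith
  · rw [lt_div_iff₀ (by positivity)]
    rw [lt_div_iff₀ h0] at h7
    linarith

lemma iS_cont_inv {x : ℝ} : ∀ᶠ z in 𝓝 x, iS (iS z) = z := Eventually.of_forall fun z => iS_iS z

lemma RF_S_symm {x : ℝ} (h : RF G iS (iS x)) : RF G iS x := by
  have h1 := h.inv (g := iS) (Eventually.of_forall fun z => iS_iS z)
  rw [iS_iS] at h1
  exact h1

lemma irr_iS {x : ℝ} (hx : Irrational x) : Irrational (iS x) := by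
  unfold iS
  rw [neg_div, one_div]
  exact hx.inv.neg

lemma irr_add {x : ℝ} (hx : Irrational x) (c : ℤ) : Irrational (x + c) := hx.add_intCast c

include ha hb in
lemma RF_S3 {x : ℝ} (h0 : 1 < x) (h1 : x < 2) : RF G iS x := by
  have h2 : RF G iL (x - 1) := RF_L0 hb (by linarith) (by linarith)
  have h3 : RF G (fun z => z + ((-1 : ℤ) : ℝ)) x := RF_add ha (-1) x
  have h4 : x + ((-1 : ℤ) : ℝ) = x - 1 := by
    push_cast
    ring
  have h5 := RF.comp h3 (by rw [h4]; exact h2)
  refine (RF.comp h5 (RF_add ha (-1) _)).congr ?_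
  filter_upwards [Ioo_mem_nhds h0 h1] with z hz
  unfold iS iL
  push_cast
  have h6 : z ≠ 0 := by
    have := hz.1
    intro h
    linarith
  have h7 : 1 + (z + -1) ≠ 0 := by
    intro h
    apply h6
    linarith
  field_simp
  ring

include ha hb in
lemma RF_S4 {x : ℝ} (h0 : -1 < x) (h1 : x < -(1 / 2)) : RF G iS x := by
  apply RF_S_symm
  have hx : x < 0 := by linarith
  apply RF_S3 ha hb
  · unfold iS
    rw [lt_div_iff_of_neg hx]
    linarith
  · unfold iS
    rw [div_lt_iff_of_neg hx]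
    linarith

include ha hb in
lemma RF_L1 {x : ℝ} (h0 : -(1 / 2) < x) (h1 : x < 0) : RF G iL x := by
  have h2 : RF G (fun z => z + ((1 : ℤ) : ℝ)) x := RF_add ha 1 x
  have h3 : x + ((1 : ℤ) : ℝ) = x + 1 := by
    push_cast
    ring
  have h5 := RF.comp h2 (f := iS) (by
    rw [h3]
    exact RF_S0 ha hb (by linarith) (by linarith))
  refine (RF.comp h5 (RF_add ha 1 _)).congr ?_
  filter_upwards [Ioo_mem_nhds h0 h1] with z hz
  unfold iS iL
  push_cast
  have h7 : 1 + z ≠ 0 := by
    have := hz.1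
    intro h
    linarith
  have h8 : z + 1 ≠ 0 := by rwa [add_comm]
  field_simp
  ring

include ha hb in
lemma RF_S5 (n : ℕ) : ∀ x : ℝ, -(1 / ((n : ℝ) + 1)) < x → x < -(1 / ((n : ℝ) + 2)) →
    RF G iS x := by
  induction n with
  | zero =>
    intro x h0 h1
    norm_num at h0 h1
    exact RF_S4 ha hb h0 (by linarith)
  | succ n ih =>
    intro x h0 h1
    push_cast at h0 h1
    have hx0 : x < 0 := lt_trans h1 (by
      have : (0 : ℝ) < 1 / ((n : ℝ) + 1 + 2) := by positivity
      linarith)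
    have h2 : -(1 / 2) < x := by
      refine lt_of_le_of_lt ?_ h0
      rw [neg_le_neg_iff]
      apply one_div_le_one_div_of_le (by norm_num)
      have : (0 : ℝ) ≤ n := Nat.cast_nonneg n
      linarith
    have h3 : iL x = x / (1 + x) := rfl
    have h10 : 0 < 1 + x := by linarith
    have h4 : RF G iS (iL x) := by
      apply ih
      · rw [h3, ← neg_div, div_lt_div_iff₀ (by positivity) h10]
        rw [neg_lt_iff_pos_add, ← sub_lt_iff_lt_add, zero_sub, neg_lt_iff_pos_add] at h0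
        have h11 : 0 < (x + 1 / ((n : ℝ) + 1 + 1)) * ((n : ℝ) + 1 + 1) := by
          apply mul_pos _ (by positivity)
          linarith
        have h12 : (x + 1 / ((n : ℝ) + 1 + 1)) * ((n : ℝ) + 1 + 1) = x * ((n : ℝ) + 1 + 1) + 1 := by
          field_simp
        rw [h12] at h11
        nlinarith
      · rw [h3, ← neg_div, div_lt_div_iff₀ h10 (by positivity)]
        have h11 : (x + 1 / ((n : ℝ) + 1 + 2)) * ((n : ℝ) + 1 + 2) < 0 := by
          apply mul_neg_of_neg_of_pos _ (by positivity)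
          linarith
        have h12 : (x + 1 / ((n : ℝ) + 1 + 2)) * ((n : ℝ) + 1 + 2) = x * ((n : ℝ) + 1 + 2) + 1 := by
          field_simp
        rw [h12] at h11
        nlinarith
    refine (RF.comp (RF.comp (RF_L1 ha hb h2 hx0) h4) (RF_add ha 1 _)).congr ?_
    filter_upwards [Ioo_mem_nhds h2 hx0] with z hz
    unfold iS iL
    have h5 : z ≠ 0 := hz.2.ne
    have h6 : 1 + z ≠ 0 := by
      have := hz.1
      intro h
      linarith
    field_simp
    push_cast
    ring

include ha hb in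
lemma RF_S6 {x : ℝ} (hx : Irrational x) (h0 : -1 < x) (h1 : x < 0) : RF G iS x := by
  have h0' : 0 < -x := by linarith
  have h2 : 1 < 1 / (-x) := by
    rw [lt_div_iff₀ h0']
    linarith
  have h3 : 1 ≤ ⌊1 / (-x)⌋₊ := by
    rw [Nat.one_le_floor_iff]
    exact h2.le
  obtain ⟨n, hn⟩ : ∃ n : ℕ, ⌊1 / (-x)⌋₊ = n + 1 := ⟨⌊1 / (-x)⌋₊ - 1, by omega⟩
  have h4 : ((n : ℝ) + 1) ≤ 1 / (-x) := by
    have := Nat.floor_le (show 0 ≤ 1 / (-x) by positivity)
    rw [hn] at this
    push_cast at this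
    exact this
  have h5 : 1 / (-x) < (n : ℝ) + 2 := by
    have := Nat.lt_floor_add_one (1 / (-x))
    rw [hn] at this
    push_cast at this
    linarith
  have h6 : (n : ℝ) + 1 ≠ 1 / (-x) := by
    intro h
    apply hx
    refine ⟨-(1 / ((n : ℚ) + 1)), ?_⟩
    push_cast
    rw [h, one_div_one_div, neg_neg]
  have h7 : (n : ℝ) + 1 < 1 / (-x) := lt_of_le_of_ne h4 h6
  apply RF_S5 ha hb n
  · rw [neg_lt, lt_div_iff₀ (by positivity)]
    rw [lt_div_iff₀ h0'] at h7
    linarith
  · rw [lt_neg, div_lt_iff₀ (by positivity)]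
    rw [div_lt_iff₀ h0'] at h5
    linarith

include ha hb in
/-- the inversion is a germ of the group at every irrational point. -/
lemma RF_S {x : ℝ} (hx : Irrational x) : RF G iS x := by
  have hx0 : x ≠ 0 := hx.ne_zero
  have hx1 : x ≠ 1 := hx.ne_one
  have hxm : x ≠ -1 := by
    intro h
    apply hx
    exact ⟨-1, by push_cast; exact h.symm⟩
  rcases lt_or_gt_of_ne hx0 with h0 | h0
  · rcases lt_or_gt_of_ne hxm with h1 | h1
    · apply RF_S_symm
      apply RF_S2 ha hb (irr_iS hx) (iS_pos h0)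
      unfold iS
      rw [div_lt_iff_of_neg h0]
      linarith
    · exact RF_S6 ha hb hx h1 h0
  · rcases lt_or_gt_of_ne hx1 with h1 | h1
    · exact RF_S2 ha hb hx h0 h1
    · apply RF_S_symm
      apply RF_S6 ha hb (irr_iS hx)
      · unfold iS
        rw [lt_div_iff₀ h0]
        linarith
      · unfold iS
        exact div_neg_of_neg_of_pos (by norm_num) h0

end germs

end

end Pool.W735.LM
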