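import Pool.Agent.W735.LM.Germ

/-!
The group of the permutations of the projective line whose germs at all irrational points are
germs of elements of `G`.
-/

set_option autoImplicit false
set_option linter.unusedVariables false

open scoped Topology MatrixGroups
open Filter OnePoint Pool.W735.Dx

namespace Pool.W735.LM

noncomputable section

/-- the permutations of the projective line which permute the irrational numbers and are germs of
elements of `G` at all irrational points. -/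
def QG (G : Subgroup (ℝ ≃o ℝ)) : Subgroup (Equiv.Perm (OnePoint ℝ)) where
  carrier := {γ | (∀ x : ℝ, Irrational x → ∃ k ∈ G, IsGerm γ (k : ℝ ≃o ℝ) x ∧
      Irrational ((k : ℝ ≃o ℝ) x)) ∧
    ∀ y : ℝ, Irrational y → ∃ x : ℝ, Irrational x ∧ γ (x : OnePoint ℝ) = (y : OnePoint ℝ)}
  one_mem' := ⟨fun x hx => ⟨1, G.one_mem, Eventually.of_forall fun z => rfl, hx⟩,
    fun y hy => ⟨y, hy, rfl⟩⟩
  mul_mem' := by
    rintro γ γ' ⟨h1, h2⟩ ⟨h3, h4⟩
    refine ⟨fun x hx => ?_, fun y hy => ?_⟩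
    · obtain ⟨k', hk', h5, h6⟩ := h3 x hx
      obtain ⟨k, hk, h7, h8⟩ := h1 _ h6
      exact ⟨k * k', G.mul_mem hk hk',
        IsGerm.mul (h := k) (h' := k') (OrderIso.continuous k').continuousAt h7 h5, h8⟩
    · obtain ⟨z, hz, h5⟩ := h2 y hy
      obtain ⟨x, hx, h6⟩ := h4 z hz
      refine ⟨x, hx, ?_⟩
      rw [Equiv.Perm.mul_apply, h6, h5]
  inv_mem' := by
    rintro γ ⟨h1, h2⟩
    refine ⟨fun y hy => ?_, fun x hx => ?_⟩
    · obtain ⟨x, hx, h3⟩ := h2 y hy
      obtain ⟨k, hk, h4, h5⟩ := h1 x hx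
      have h6 : k x = y := by
        have h7 := h4.self_of_nhds
        rw [h3, OnePoint.coe_eq_coe] at h7
        exact h7.symm
      have h7 := h4.inv
      rw [h6] at h7
      refine ⟨k⁻¹, G.inv_mem hk, h7, ?_⟩
      have h8 : (k⁻¹ : ℝ ≃o ℝ) y = x := by
        rw [← h6]
        exact k.symm_apply_apply x
      rw [h8]
      exact hx
    · obtain ⟨k, hk, h4, h5⟩ := h1 x hx
      refine ⟨k x, h5, ?_⟩
      have h7 := h4.self_of_nhds
      rw [← h7]
      exact γ.symm_apply_apply _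

variable {G : Subgroup (ℝ ≃o ℝ)}

/-- the embedding of `SL₂(ℤ)`. -/
def zHom : SL(2, ℤ) →* Equiv.Perm (OnePoint ℝ) :=
  (mobHom ℝ).comp (Matrix.SpecialLinearGroup.map (Int.castRingHom ℝ))

lemma zHom_coe (M : SL(2, ℤ)) (x : ℝ) : zHom M (x : OnePoint ℝ) =
    if ((M 1 0 : ℤ) : ℝ) * x + ((M 1 1 : ℤ) : ℝ) = 0 then ∞ else
      (((((M 0 0 : ℤ) : ℝ) * x + ((M 0 1 : ℤ) : ℝ)) /
        (((M 1 0 : ℤ) : ℝ) * x + ((M 1 1 : ℤ) : ℝ)) : ℝ) : OnePoint ℝ) := by
  show mobHom ℝ (Matrix.SpecialLinearGroup.map (Int.castRingHom ℝ) M) (x : OnePoint ℝ) = _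
  rw [mobHom_coe]
  rfl

lemma zHom_T (x : ℝ) : zHom ModularGroup.T (x : OnePoint ℝ) = ((x + 1 : ℝ) : OnePoint ℝ) := by
  rw [zHom_coe]
  simp [ModularGroup.T]

lemma zHom_S (x : ℝ) (hx : x ≠ 0) :
    zHom ModularGroup.S (x : OnePoint ℝ) = ((iS x : ℝ) : OnePoint ℝ) := by
  rw [zHom_coe]
  simp [ModularGroup.S, hx, iS]

section

variable (ha : ta ∈ G) (hb : tb ∈ G)

include ha in
lemma T_mem : zHom ModularGroup.T ∈ QG G := by
  refine ⟨fun x hx => ⟨ta, ha, Eventually.of_forall fun z => zHom_T z, ?_⟩, fun y hy => ?_⟩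
  · rw [ta_apply]
    have := irr_add hx 1
    push_cast at this
    exact this
  · refine ⟨y - 1, ?_, ?_⟩
    · have := irr_add hy (-1)
      push_cast at this
      rwa [← sub_eq_add_neg] at this
    · rw [zHom_T, sub_add_cancel]

include ha hb in
lemma S_mem : zHom ModularGroup.S ∈ QG G := by
  refine ⟨fun x hx => ?_, fun y hy => ?_⟩
  · obtain ⟨k, hk, h1⟩ := RF_S ha hb hx
    refine ⟨k, hk, ?_, ?_⟩
    · have h2 : ∀ᶠ z : ℝ in 𝓝 x, z ≠ 0 := isOpen_ne.mem_nhds hx.ne_zero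
      filter_upwards [h1, h2] with z h3 h4
      rw [zHom_S z h4, h3]
    · rw [h1.self_of_nhds]
      exact irr_iS hx
  · refine ⟨iS y, irr_iS hy, ?_⟩
    rw [zHom_S _ (irr_iS hy).ne_zero, iS_iS]

include ha hb in
lemma Z_mem (M : SL(2, ℤ)) : zHom M ∈ QG G := by
  have h1 : (Subgroup.closure {ModularGroup.S, ModularGroup.T} : Subgroup SL(2, ℤ)) ≤
      (QG G).comap zHom := by
    rw [Subgroup.closure_le]
    rintro M (rfl | rfl)
    · exact S_mem ha hb
    · exact T_mem ha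
  rw [SpecialLinearGroup.SL2Z_generators] at h1
  exact h1 (Subgroup.mem_top M)

end

end

end Pool.W735.LM
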