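import Pool.Agent.W735.LM.Bump

/-!
Groups of piecewise projective homeomorphisms of the line containing Thompson's group and a germ of
a dilation are not unitarizable.
-/

set_option autoImplicit false
set_option linter.unusedVariables false
set_option linter.unusedSectionVars false

open scoped Topology MatrixGroups
open Filter OnePoint MeasureTheory Pool.W735.Dx

namespace Pool.W735.LM

noncomputable section

variable {G : Subgroup (ℝ ≃o ℝ)}

/-- a countable family of elements realises the germs of an element of `QG G` almost everywhere. -/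
lemma exists_seq {γ : Equiv.Perm (OnePoint ℝ)} (hγ : γ ∈ QG G) :
    ∃ ks : ℕ → (ℝ ≃o ℝ), (∀ n, ks n ∈ G) ∧ ∀ᵐ x : ℝ, ∃ n, IsGerm γ (ks n) x := by
  obtain ⟨T, hT, hTU⟩ := TopologicalSpace.isOpen_iUnion_countable
    (fun k : G => {x : ℝ | IsGerm γ (k : ℝ ≃o ℝ) x})
    (fun k => isOpen_iff_mem_nhds.2 fun x hx => IsGerm.eventually hx)
  have hirr : ∀ᵐ x : ℝ, Irrational x :=
    (Set.countable_range ((↑) : ℚ → ℝ)).ae_notMem volume
  have hne : T.Nonempty := by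
    obtain ⟨x, hx⟩ : ∃ x : ℝ, Irrational x := ⟨_, irrational_sqrt_two⟩
    obtain ⟨k, hk, h1, h2⟩ := hγ.1 x hx
    have h3 : x ∈ ⋃ k : G, {x : ℝ | IsGerm γ (k : ℝ ≃o ℝ) x} := Set.mem_iUnion.2 ⟨⟨k, hk⟩, h1⟩
    rw [← hTU] at h3
    obtain ⟨i, hi, _⟩ := Set.mem_iUnion₂.1 h3
    exact ⟨i, hi⟩
  obtain ⟨f, hf⟩ := hT.exists_eq_range hne
  refine ⟨fun n => (f n : ℝ ≃o ℝ), fun n => (f n).2, ?_⟩
  filter_upwards [hirr] with x hx
  obtain ⟨k, hk, h1, h2⟩ := hγ.1 x hx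
  have h3 : x ∈ ⋃ k : G, {x : ℝ | IsGerm γ (k : ℝ ≃o ℝ) x} := Set.mem_iUnion.2 ⟨⟨k, hk⟩, h1⟩
  rw [← hTU] at h3
  obtain ⟨i, hi, h4⟩ := Set.mem_iUnion₂.1 h3
  rw [hf] at hi
  obtain ⟨n, rfl⟩ := hi
  exact ⟨n, h4⟩

lemma ut_zero : mobHom ℝ (ut 0) = 1 := by
  rw [← map_one (mobHom ℝ)]
  congr 1
  apply SLext <;> simp [ut_00, ut_01, ut_10, ut_11]

/-- the criterion for the groups containing Thompson's group. -/
theorem LM_not_UG (hG : G ≤ PM (mobHom ℝ).range) (ha : ta ∈ G) (hb : tb ∈ G) {N : ℕ}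
    (hN : 2 ≤ N) (hN0 : 0 < N) {h : ℝ ≃o ℝ} (hh : h ∈ G) {u v : ℝ} (huv : u < v)
    (A B : SL(2, ℤ)) (hAB : ∀ x ∈ Set.Ioo u v,
      (zHom A * mobHom ℝ (dN N hN0) * zHom B) (x : OnePoint ℝ) = ((h x : ℝ) : OnePoint ℝ)) :
    ¬ UG G := by
  have hD := D_mem ha hb hN hN0 hh huv A B hAB
  have hε0 : (0 : ℝ) < 1 / N := by positivity
  have hε1 : (1 : ℝ) / N < 1 := by
    rw [div_lt_one (by positivity)]
    have : (2 : ℝ) ≤ N := by exact_mod_cast hN
    linarith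
  obtain ⟨m, hm, hinj⟩ := exists_free (1 / (N : ℝ)) hε0 hε1
  set t : ℝ := (1 / (N : ℝ)) ^ m with ht
  have ht2 : |t| < 2 := by
    have h2 : 0 < t := by positivity
    have h3 : t ≤ 1 := pow_le_one₀ hε0.le hε1.le
    rw [abs_of_pos h2]
    linarith
  set Λ : Subgroup (Equiv.Perm (OnePoint ℝ)) := (mobHom ℝ).range with hΛ
  have hut : ∀ j : ℕ, mobHom ℝ (ut (t ^ j)) ∈ QG G := by
    intro j
    rw [ht, ← pow_mul]
    exact ut_mem_QG ha hN0 hD _
  have hrr : ∀ k, mobHom ℝ (ut (rr t k)) ∈ QG G := by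
    intro k
    unfold rr
    split_ifs
    · rw [ut_zero]
      exact (QG G).one_mem
    · exact hut _
  have hcmQ : ∀ k, mobHom ℝ (cm t (rr t k)) ∈ QG G := by
    intro k
    rw [cm_eq]
    have h1 := hut 1
    rw [pow_one] at h1
    exact (QG G).mul_mem ((QG G).mul_mem ((QG G).mul_mem h1 (hrr k)) (S_mem ha hb))
      ((QG G).inv_mem (hrr k))
  set j : FreeGroup ℕ →* Λ := ((mobHom ℝ).comp (JJ t)).codRestrict Λ
    (fun w => ⟨JJ t w, rfl⟩) with hj
  have hjinj : Function.Injective j := by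
    intro a b hab
    apply hinj
    exact congrArg Subtype.val hab
  have hjof : ∀ k, (j (FreeGroup.of k) : Equiv.Perm (OnePoint ℝ)) = mobHom ℝ (cm t (rr t k)) := by
    intro k
    show mobHom ℝ (JJ t (FreeGroup.of k)) = _
    rw [JJ_of]
  have hjinv : ∀ k, (((j (FreeGroup.of k))⁻¹ : Λ) : Equiv.Perm (OnePoint ℝ)) =
      (mobHom ℝ (cm t (rr t k)))⁻¹ := by
    intro k
    rw [← hjof]
    rfl
  have hrr0 : rr t 0 = 0 := if_pos rfl
  have hcm : cm t 0 = mat t := by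
    ext i j
    fin_cases i <;> fin_cases j <;> simp [cm, mat]
  obtain ⟨ks, hks, hcov⟩ := exists_seq ((QG G).inv_mem (hcmQ 0))
  have hmain : ¬ UG (G.subgroupOf (PM Λ)) := by
    refine not_UG le_rfl (G.subgroupOf (PM Λ)) j hjinj t ht2 ?_ ?_
      (fun n => ⟨ks n, hG (hks n)⟩) (fun n => Subgroup.mem_subgroupOf.2 (hks n)) ?_ ?_
    · rw [hjof, hrr0, hcm]
    · intro x ε hε
      exact hden_LM hG ha hb x ε hε
    · filter_upwards [hcov] with x hx
      obtain ⟨n, hn⟩ := hx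
      refine ⟨n, ?_⟩
      rw [hjinv]
      exact hn
    · intro n
      obtain ⟨k, hk, h1, h2⟩ := ((QG G).inv_mem (hcmQ (n + 1))).1 _ irrational_sqrt_two
      refine ⟨⟨k, hG hk⟩, Subgroup.mem_subgroupOf.2 hk, √2, ?_⟩
      rw [hjinv]
      exact h1
  intro hU
  apply hmain
  exact hU.of_injective (Subgroup.subgroupOfEquivOfLe hG).toMonoidHom
    (Subgroup.subgroupOfEquivOfLe hG).injective

end

end Pool.W735.LM
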