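import Pool.Agent.W735.LM.Main

/-!
The Smith normal form of a primitive integer matrix, and germs with rational coefficients.
-/

set_option autoImplicit false
set_option linter.unusedVariables false
set_option linter.unusedSectionVars false
set_option linter.unusedSimpArgs false

open scoped Topology MatrixGroups
open Filter OnePoint MeasureTheory Pool.W735.Dx

namespace Pool.W735.LM

noncomputable section

abbrev ZM := Matrix (Fin 2) (Fin 2) ℤ

lemma zmul (A B : ZM) (i j : Fin 2) : (A * B) i j = A i 0 * B 0 j + A i 1 * B 1 j := by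
  rw [Matrix.mul_apply, Fin.sum_univ_two]

/-- a shear followed by a rotation. -/
def r1m (k : ℤ) : SL(2, ℤ) := ⟨!![-k, -1; 1, 0], by rw [Matrix.det_fin_two_of]; ring⟩

def r2m (k : ℤ) : SL(2, ℤ) := ⟨!![-k, 1; -1, 0], by rw [Matrix.det_fin_two_of]; ring⟩

def r3m (b : ℤ) : SL(2, ℤ) := ⟨!![1 - b, 1; -b, 1], by rw [Matrix.det_fin_two_of]; ring⟩

def lom (b : ℤ) : SL(2, ℤ) := ⟨!![1, 0; b, 1], by rw [Matrix.det_fin_two_of]; ring⟩

def upm (b : ℤ) : SL(2, ℤ) := ⟨!![1, b; 0, 1], by rw [Matrix.det_fin_two_of]; ring⟩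

lemma smith_aux (M : ZM) (hM : M 0 0 * M 1 1 - M 0 1 * M 1 0 ≠ 0)
    (hprim : ∀ d : ℤ, (∀ i j, d ∣ M i j) → IsUnit d) :
    ∃ A B : SL(2, ℤ), ((A : ZM) * M * (B : ZM)) 0 0 = 1 := by
  classical
  have hex : ∃ n : ℕ, 0 < n ∧ ∃ A B : SL(2, ℤ), ((A : ZM) * M * (B : ZM)) 0 0 = n := by
    by_cases h0 : M 0 0 = 0
    · have h1 : M 0 1 ≠ 0 := by
        intro h
        rw [h0, h] at hM
        simp at hM
      refine ⟨(M 0 1).natAbs, Int.natAbs_pos.2 h1, ?_⟩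
      rcases le_or_gt 0 (M 0 1) with h | h
      · refine ⟨1, r1m 0, ?_⟩
        rw [zmul, zmul, zmul]
        simp [r1m, h0, abs_of_nonneg h]
      · refine ⟨1, r2m 0, ?_⟩
        rw [zmul, zmul, zmul]
        simp [r2m, h0, abs_of_neg h]
    · refine ⟨(M 0 0).natAbs, Int.natAbs_pos.2 h0, ?_⟩
      rcases le_or_gt 0 (M 0 0) with h | h
      · refine ⟨1, 1, ?_⟩
        rw [zmul, zmul, zmul]
        simp [abs_of_nonneg h]
      · refine ⟨1, -1, ?_⟩
        rw [zmul, zmul, zmul]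
        simp [abs_of_neg h]
  set m := Nat.find hex with hm
  obtain ⟨hmpos, A, B, hAB⟩ := Nat.find_spec hex
  rw [← hm] at hmpos hAB
  have hm0 : (0 : ℤ) < m := by exact_mod_cast hmpos
  set K : ZM := (A : ZM) * M * (B : ZM) with hK
  have hmin : ∀ A' B' : SL(2, ℤ), 0 < ((A' : ZM) * K * (B' : ZM)) 0 0 →
      (m : ℤ) ≤ ((A' : ZM) * K * (B' : ZM)) 0 0 := by
    intro A' B' hpos
    by_contra hlt
    push Not at hlt
    obtain ⟨n, hn⟩ := Int.eq_ofNat_of_zero_le hpos.le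
    have hn0 : 0 < n := by
      rw [hn] at hpos
      exact_mod_cast hpos
    have hnm : n < m := by
      rw [hn] at hlt
      exact_mod_cast hlt
    apply Nat.find_min hex hnm
    refine ⟨hn0, A' * A, B * B', ?_⟩
    rw [← hn, Matrix.SpecialLinearGroup.coe_mul, Matrix.SpecialLinearGroup.coe_mul, hK]
    simp only [Matrix.mul_assoc]
  have claim1 : ∀ A' : SL(2, ℤ), ((A' : ZM) * K) 0 0 = m → (m : ℤ) ∣ ((A' : ZM) * K) 0 1 := by
    intro A' h
    set y := ((A' : ZM) * K) 0 1 with hy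
    have h1 : ((A' : ZM) * K * (r1m (y / m) : ZM)) 0 0 = y % m := by
      rw [zmul, h, ← hy]
      have h2 : (r1m (y / m) : ZM) 0 0 = -(y / m) := rfl
      have h3 : (r1m (y / m) : ZM) 1 0 = 1 := rfl
      rw [h2, h3]
      have := Int.emod_add_mul_ediv y m
      linarith
    have h2 := Int.emod_nonneg y hm0.ne'
    have h3 := Int.emod_lt_of_pos y hm0
    rcases h2.eq_or_lt with h4 | h4
    · exact Int.dvd_of_emod_eq_zero h4.symm
    · have := hmin A' (r1m (y / m)) (by rw [h1]; exact h4)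
      rw [h1] at this
      omega
  have hK01 : (m : ℤ) ∣ K 0 1 := by
    have := claim1 1 (by rw [Matrix.SpecialLinearGroup.coe_one, one_mul]; exact hAB)
    rwa [Matrix.SpecialLinearGroup.coe_one, one_mul] at this
  have hK10 : (m : ℤ) ∣ K 1 0 := by
    set y := K 1 0 with hy
    have h1 : ((r2m (y / m) : ZM) * K * ((1 : SL(2, ℤ)) : ZM)) 0 0 = y % m := by
      rw [Matrix.SpecialLinearGroup.coe_one, mul_one, zmul, hAB, ← hy]
      have h2 : (r2m (y / m) : ZM) 0 0 = -(y / m) := rfl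
      have h3 : (r2m (y / m) : ZM) 0 1 = 1 := rfl
      rw [h2, h3]
      have := Int.emod_add_mul_ediv y m
      linarith
    have h2 := Int.emod_nonneg y hm0.ne'
    have h3 := Int.emod_lt_of_pos y hm0
    rcases h2.eq_or_lt with h4 | h4
    · exact Int.dvd_of_emod_eq_zero h4.symm
    · have := hmin (r2m (y / m)) 1 (by rw [h1]; exact h4)
      rw [h1] at this
      omega
  have hK11 : (m : ℤ) ∣ K 1 1 := by
    obtain ⟨b, hb⟩ := hK10
    have h2 : (r3m b : ZM) 0 0 = 1 - b := rfl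
    have h3 : (r3m b : ZM) 0 1 = 1 := rfl
    have h1 : ((r3m b : ZM) * K) 0 0 = m := by
      rw [zmul, h2, h3, hAB, hb]
      ring
    have h4 := claim1 _ h1
    rw [zmul, h2, h3, one_mul] at h4
    exact (dvd_add_right (hK01.mul_left _)).1 h4
  have hKall : ∀ i j, (m : ℤ) ∣ K i j := by
    intro i j
    fin_cases i <;> fin_cases j
    · exact ⟨1, by rw [mul_one]; exact hAB⟩
    · exact hK01
    · exact hK10
    · exact hK11
  have hMK : M = ((A⁻¹ : SL(2, ℤ)) : ZM) * K * ((B⁻¹ : SL(2, ℤ)) : ZM) := by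
    have h1 : ((A⁻¹ : SL(2, ℤ)) : ZM) * (A : ZM) = 1 := by
      rw [← Matrix.SpecialLinearGroup.coe_mul, inv_mul_cancel, Matrix.SpecialLinearGroup.coe_one]
    have h2 : (B : ZM) * ((B⁻¹ : SL(2, ℤ)) : ZM) = 1 := by
      rw [← Matrix.SpecialLinearGroup.coe_mul, mul_inv_cancel, Matrix.SpecialLinearGroup.coe_one]
    rw [hK]
    calc M = 1 * M * 1 := by rw [one_mul, mul_one]
      _ = (((A⁻¹ : SL(2, ℤ)) : ZM) * (A : ZM)) * M * ((B : ZM) * ((B⁻¹ : SL(2, ℤ)) : ZM)) := by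
        rw [h1, h2]
      _ = _ := by simp only [Matrix.mul_assoc]
  have hdvd : ∀ i j, (m : ℤ) ∣ M i j := by
    intro i j
    rw [hMK, zmul, zmul, zmul]
    exact dvd_add (Dvd.dvd.mul_right (dvd_add ((hKall _ _).mul_left _) ((hKall _ _).mul_left _)) _)
      (Dvd.dvd.mul_right (dvd_add ((hKall _ _).mul_left _) ((hKall _ _).mul_left _)) _)
  have hunit := hprim m hdvd
  have hm1 : (m : ℤ) = 1 := by
    rcases Int.isUnit_iff.1 hunit with h | h
    · exact h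
    · omega
  exact ⟨A, B, by rw [← hK, hAB, hm1]⟩

/-- the Smith normal form of a primitive matrix. -/
lemma smith (M : ZM) (hM : M 0 0 * M 1 1 - M 0 1 * M 1 0 ≠ 0)
    (hprim : ∀ d : ℤ, (∀ i j, d ∣ M i j) → IsUnit d) :
    ∃ A B : SL(2, ℤ), M = (A : ZM) * !![M 0 0 * M 1 1 - M 0 1 * M 1 0, 0; 0, 1] * (B : ZM) := by
  obtain ⟨A, B, hAB⟩ := smith_aux M hM hprim
  set K : ZM := (A : ZM) * M * (B : ZM) with hK
  have hdet : K.det = M.det := by
    rw [hK, Matrix.det_mul, Matrix.det_mul, Matrix.SpecialLinearGroup.det_coe,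
      Matrix.SpecialLinearGroup.det_coe, one_mul, mul_one]
  rw [Matrix.det_fin_two, Matrix.det_fin_two, hAB, one_mul] at hdet
  have hMK : M = ((A⁻¹ : SL(2, ℤ)) : ZM) * K * ((B⁻¹ : SL(2, ℤ)) : ZM) := by
    have h1 : ((A⁻¹ : SL(2, ℤ)) : ZM) * (A : ZM) = 1 := by
      rw [← Matrix.SpecialLinearGroup.coe_mul, inv_mul_cancel, Matrix.SpecialLinearGroup.coe_one]
    have h2 : (B : ZM) * ((B⁻¹ : SL(2, ℤ)) : ZM) = 1 := by
      rw [← Matrix.SpecialLinearGroup.coe_mul, mul_inv_cancel, Matrix.SpecialLinearGroup.coe_one]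
    rw [hK]
    calc M = 1 * M * 1 := by rw [one_mul, mul_one]
      _ = (((A⁻¹ : SL(2, ℤ)) : ZM) * (A : ZM)) * M * ((B : ZM) * ((B⁻¹ : SL(2, ℤ)) : ZM)) := by
        rw [h1, h2]
      _ = _ := by simp only [Matrix.mul_assoc]
  have hKd : K = ((lom (K 1 0) * ModularGroup.S : SL(2, ℤ)) : ZM) *
      !![M 0 0 * M 1 1 - M 0 1 * M 1 0, 0; 0, 1] *
      ((ModularGroup.S⁻¹ * upm (K 0 1) : SL(2, ℤ)) : ZM) := by
    rw [← hdet]
    have hS : ((ModularGroup.S⁻¹ : SL(2, ℤ)) : ZM) = !![0, 1; -1, 0] := by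
      rw [Matrix.SpecialLinearGroup.coe_inv]
      simp [ModularGroup.S, Matrix.adjugate_fin_two]
    rw [Matrix.SpecialLinearGroup.coe_mul, Matrix.SpecialLinearGroup.coe_mul, hS]
    ext i j
    simp only [zmul]
    fin_cases i <;> fin_cases j <;> simp [lom, upm, ModularGroup.S, hAB]
    ring
  refine ⟨A⁻¹ * (lom (K 1 0) * ModularGroup.S), ModularGroup.S⁻¹ * upm (K 0 1) * B⁻¹, ?_⟩
  rw [Matrix.SpecialLinearGroup.coe_mul A⁻¹, Matrix.SpecialLinearGroup.coe_mul _ B⁻¹]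
  calc M = ((A⁻¹ : SL(2, ℤ)) : ZM) * K * ((B⁻¹ : SL(2, ℤ)) : ZM) := hMK
    _ = ((A⁻¹ : SL(2, ℤ)) : ZM) * (((lom (K 1 0) * ModularGroup.S : SL(2, ℤ)) : ZM) *
      !![M 0 0 * M 1 1 - M 0 1 * M 1 0, 0; 0, 1] *
      ((ModularGroup.S⁻¹ * upm (K 0 1) : SL(2, ℤ)) : ZM)) * ((B⁻¹ : SL(2, ℤ)) : ZM) := by
        rw [← hKd]
    _ = _ := by simp only [Matrix.mul_assoc]

/-- a rational germ which is not integral gives the data of the criterion. -/
lemma germ_rat {h : ℝ ≃o ℝ} {u v : ℝ} (p q r s : ℤ) (hdet : 0 < p * s - q * r)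
    (hrat : ∀ x ∈ Set.Ioo u v, (r : ℝ) * x + s ≠ 0 ∧ h x = (p * x + q) / (r * x + s))
    (hint : ¬ ∃ M : SL(2, ℤ), ∀ x ∈ Set.Ioo u v,
      h x = (((M 0 0 : ℤ) : ℝ) * x + ((M 0 1 : ℤ) : ℝ)) /
        (((M 1 0 : ℤ) : ℝ) * x + ((M 1 1 : ℤ) : ℝ))) :
    ∃ N : ℕ, 2 ≤ N ∧ ∃ (hN0 : 0 < N) (A B : SL(2, ℤ)), ∀ x ∈ Set.Ioo u v,
      (zHom A * mobHom ℝ (dN N hN0) * zHom B) (x : OnePoint ℝ) = ((h x : ℝ) : OnePoint ℝ) := by
  set g : ℕ := Int.gcd (Int.gcd p q) (Int.gcd r s) with hg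
  have hgpq : (g : ℤ) ∣ (Int.gcd p q : ℤ) := Int.gcd_dvd_left _ _
  have hgrs : (g : ℤ) ∣ (Int.gcd r s : ℤ) := Int.gcd_dvd_right _ _
  obtain ⟨p', hp⟩ : (g : ℤ) ∣ p := hgpq.trans (Int.gcd_dvd_left _ _)
  obtain ⟨q', hq⟩ : (g : ℤ) ∣ q := hgpq.trans (Int.gcd_dvd_right _ _)
  obtain ⟨r', hr⟩ : (g : ℤ) ∣ r := hgrs.trans (Int.gcd_dvd_left _ _)
  obtain ⟨s', hs⟩ : (g : ℤ) ∣ s := hgrs.trans (Int.gcd_dvd_right _ _)
  have hdet2 : p * s - q * r = (g : ℤ) ^ 2 * (p' * s' - q' * r') := by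
    rw [hp, hq, hr, hs]
    ring
  have hg0 : (g : ℤ) ≠ 0 := by
    intro h0
    rw [hdet2, h0] at hdet
    simp at hdet
  have hg2 : (0 : ℤ) < (g : ℤ) ^ 2 := by positivity
  have hD : 0 < p' * s' - q' * r' := by
    rw [hdet2] at hdet
    exact (pos_iff_pos_of_mul_pos hdet).1 hg2
  have hgR : (g : ℝ) ≠ 0 := by exact_mod_cast hg0
  have hrat' : ∀ x ∈ Set.Ioo u v, (r' : ℝ) * x + s' ≠ 0 ∧
      h x = (p' * x + q') / (r' * x + s') := by
    intro x hx
    obtain ⟨h1, h2⟩ := hrat x hx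
    have h3 : (r : ℝ) * x + s = g * (r' * x + s') := by
      rw [hr, hs]
      push_cast
      ring
    have h4 : (p : ℝ) * x + q = g * (p' * x + q') := by
      rw [hp, hq]
      push_cast
      ring
    rw [h3] at h1
    refine ⟨right_ne_zero_of_mul h1, ?_⟩
    rw [h2, h3, h4, mul_div_mul_left _ _ hgR]
  set M : ZM := !![p', q'; r', s'] with hM
  have hprim : ∀ d : ℤ, (∀ i j, d ∣ M i j) → IsUnit d := by
    intro d hd
    have h1 : d ∣ p' := hd 0 0
    have h2 : d ∣ q' := hd 0 1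
    have h3 : d ∣ r' := hd 1 0
    have h4 : d ∣ s' := hd 1 1
    have h5 : (g : ℤ) * d ∣ g := by
      rw [hg]
      apply Int.dvd_coe_gcd
      · apply Int.dvd_coe_gcd
        · rw [← hg]
          conv_rhs => rw [hp]
          exact mul_dvd_mul_left _ h1
        · rw [← hg]
          conv_rhs => rw [hq]
          exact mul_dvd_mul_left _ h2
      · apply Int.dvd_coe_gcd
        · rw [← hg]
          conv_rhs => rw [hr]
          exact mul_dvd_mul_left _ h3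
        · rw [← hg]
          conv_rhs => rw [hs]
          exact mul_dvd_mul_left _ h4
    obtain ⟨e, he⟩ := h5
    have h6 : d * e = 1 := by
      have h7 : (g : ℤ) * (d * e) = g * 1 := by
        rw [mul_one, ← mul_assoc]
        exact he.symm
      exact mul_left_cancel₀ hg0 h7
    exact IsUnit.of_mul_eq_one e h6
  have hMdet : M 0 0 * M 1 1 - M 0 1 * M 1 0 = p' * s' - q' * r' := rfl
  obtain ⟨A, B, hAB⟩ := smith M (by rw [hMdet]; exact hD.ne') hprim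
  rw [hMdet] at hAB
  have hD2 : 2 ≤ p' * s' - q' * r' := by
    by_contra h1
    have h2 : p' * s' - q' * r' = 1 := by omega
    apply hint
    refine ⟨⟨!![p', q'; r', s'], by rw [Matrix.det_fin_two_of]; exact h2⟩, fun x hx => ?_⟩
    exact (hrat' x hx).2
  obtain ⟨N, hN⟩ := Int.eq_ofNat_of_zero_le hD.le
  rw [hN] at hAB hD2
  have hN2 : 2 ≤ N := by exact_mod_cast hD2
  have hN0 : 0 < N := by omega
  refine ⟨N, hN2, hN0, A, B, fun x hx => ?_⟩
  obtain ⟨h1, h2⟩ := hrat' x hx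
  show (mobHom ℝ _ * mobHom ℝ _ * mobHom ℝ _) _ = _
  rw [← map_mul, ← map_mul]
  set M' : SL(2, ℝ) := Matrix.SpecialLinearGroup.map (Int.castRingHom ℝ) A * dN N hN0 *
    Matrix.SpecialLinearGroup.map (Int.castRingHom ℝ) B with hM'
  have hs0 : 0 < Real.sqrt N := Real.sqrt_pos.2 (by exact_mod_cast hN0)
  have hss : Real.sqrt N * Real.sqrt N = N := Real.mul_self_sqrt (by positivity)
  have hent : ∀ i j, M' i j = ((M i j : ℤ) : ℝ) / Real.sqrt N := by
    intro i j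
    rw [hAB]
    simp only [hM', SLmul, zmul, zmap, dN_00, dN_01, dN_10, dN_11]
    simp only [Matrix.cons_val', Matrix.cons_val_zero, Matrix.cons_val_one, Matrix.of_apply,
      Matrix.cons_val_fin_one]
    push_cast
    field_simp
    linear_combination ((A i 0 : ℤ) : ℝ) * ((B 0 j : ℤ) : ℝ) * hss
  have e00 : M' 0 0 = (p' : ℝ) / Real.sqrt N := hent 0 0
  have e01 : M' 0 1 = (q' : ℝ) / Real.sqrt N := hent 0 1
  have e10 : M' 1 0 = (r' : ℝ) / Real.sqrt N := hent 1 0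
  have e11 : M' 1 1 = (s' : ℝ) / Real.sqrt N := hent 1 1
  have h3 : (r' : ℝ) / Real.sqrt N * x + s' / Real.sqrt N = (r' * x + s') / Real.sqrt N := by ring
  have h4 : (p' : ℝ) / Real.sqrt N * x + q' / Real.sqrt N = (p' * x + q') / Real.sqrt N := by ring
  rw [mobHom_coe, e00, e01, e10, e11, h3, h4, if_neg (div_ne_zero h1 hs0.ne'),
    OnePoint.coe_eq_coe, div_div_div_cancel_right₀ hs0.ne', h2]

end

end Pool.W735.LM
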